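import Mathlib

set_option autoImplicit false

namespace Pool.Agent.H874Z.KR

open Set Filter Topology

variable {Y : Type} [TopologicalSpace Y] {E : Y → Y → Prop}

/-- `f` and `g` are inverse homeomorphisms between `V` and `W`, inside the relation `E`. -/
structure IsoF (E : Y → Y → Prop) (f g : Y → Y) (V W : Set Y) : Prop where
  mf : MapsTo f V W
  mg : MapsTo g W V
  gf : ∀ x ∈ V, g (f x) = x
  fg : ∀ y ∈ W, f (g y) = y
  cf : ContinuousOn f V
  cg : ContinuousOn g W
  rel : ∀ x ∈ V, E x (f x)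

def Iso (E : Y → Y → Prop) (V W : Set Y) : Prop := ∃ f g, IsoF E f g V W

theorem IsoF.symm (hE : Equivalence E) {f g : Y → Y} {V W : Set Y} (h : IsoF E f g V W) :
    IsoF E g f W V :=
  ⟨h.mg, h.mf, h.fg, h.gf, h.cg, h.cf, fun y hy => by
    have := h.rel (g y) (h.mg hy)
    rw [h.fg y hy] at this
    exact hE.symm this⟩

theorem IsoF.refl (hE : Equivalence E) (V : Set Y) : IsoF E id id V V :=
  ⟨mapsTo_id V, mapsTo_id V, fun _ _ => rfl, fun _ _ => rfl, continuousOn_id, continuousOn_id,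
    fun x _ => hE.refl x⟩

theorem Iso.symm (hE : Equivalence E) {V W : Set Y} (h : Iso E V W) : Iso E W V := by
  obtain ⟨f, g, h⟩ := h
  exact ⟨g, f, h.symm hE⟩

theorem Iso.refl (hE : Equivalence E) (V : Set Y) : Iso E V V := ⟨id, id, IsoF.refl hE V⟩

theorem Iso.trans (hE : Equivalence E) {U V W : Set Y} (h : Iso E U V) (h' : Iso E V W) :
    Iso E U W := by
  obtain ⟨f, g, h⟩ := h
  obtain ⟨f', g', h'⟩ := h'
  refine ⟨f' ∘ f, g ∘ g', h'.mf.comp h.mf, h.mg.comp h'.mg, fun x hx => ?_, fun y hy => ?_,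
    h'.cf.comp h.cf h.mf, h.cg.comp h'.cg h'.mg, fun x hx => ?_⟩
  · simp only [Function.comp]
    rw [h'.gf _ (h.mf hx), h.gf x hx]
  · simp only [Function.comp]
    rw [h.fg _ (h'.mg hy), h'.fg y hy]
  · exact hE.trans (h.rel x hx) (h'.rel _ (h.mf hx))

theorem IsoF.image_eq {f g : Y → Y} {V W V0 : Set Y} (h : IsoF E f g V W) (h0 : V0 ⊆ V) :
    f '' V0 = W ∩ g ⁻¹' V0 := by
  ext y
  constructor
  · rintro ⟨x, hx, rfl⟩
    exact ⟨h.mf (h0 hx), by simpa [h.gf x (h0 hx)] using hx⟩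
  · rintro ⟨hy, hy'⟩
    exact ⟨g y, hy', h.fg y hy⟩

theorem IsoF.restrict {f g : Y → Y} {V W V0 : Set Y} (h : IsoF E f g V W) (h0 : V0 ⊆ V) :
    IsoF E f g V0 (f '' V0) := by
  have hs : f '' V0 ⊆ W := by
    rw [h.image_eq h0]
    exact inter_subset_left
  refine ⟨mapsTo_image f V0, ?_, fun x hx => h.gf x (h0 hx), fun y hy => h.fg y (hs hy),
    h.cf.mono h0, h.cg.mono hs, fun x hx => h.rel x (h0 hx)⟩
  rintro y ⟨x, hx, rfl⟩
  simpa [h.gf x (h0 hx)] using hx

theorem IsoF.isClopen_image {f g : Y → Y} {V W V0 : Set Y} (h : IsoF E f g V W) (h0 : V0 ⊆ V)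
    (hW : IsClopen W) (hV : IsClopen V0) : IsClopen (f '' V0) := by
  rw [h.image_eq h0]
  exact ⟨h.cg.preimage_isClosed_of_isClosed hW.isClosed hV.isClosed,
    h.cg.isOpen_inter_preimage hW.isOpen hV.isOpen⟩

theorem exists_glue_fun {ι : Type} (V : ι → Set Y) (f : ι → Y → Y) (hV : ∀ i, IsOpen (V i))
    (dV : Pairwise fun i j => Disjoint (V i) (V j)) (hf : ∀ i, ContinuousOn (f i) (V i)) :
    ∃ F : Y → Y, ContinuousOn F (⋃ i, V i) ∧ ∀ i, ∀ x ∈ V i, F x = f i x := by
  classical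
  let F : Y → Y := fun x => if h : ∃ i, x ∈ V i then f h.choose x else x
  have hF : ∀ i, ∀ x ∈ V i, F x = f i x := by
    intro i x hx
    have h : ∃ i, x ∈ V i := ⟨i, hx⟩
    have : h.choose = i := by
      by_contra hne
      exact Set.disjoint_left.1 (dV hne) h.choose_spec hx
    simp only [F, dif_pos h, this]
  refine ⟨F, ?_, hF⟩
  intro x hx
  obtain ⟨i, hi⟩ := mem_iUnion.1 hx
  have h1 : ContinuousAt (f i) x := (hf i).continuousAt ((hV i).mem_nhds hi)
  refine (h1.congr ?_).continuousWithinAt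
  filter_upwards [(hV i).mem_nhds hi] with y hy
  exact (hF i y hy).symm

theorem glue {ι : Type} (V W : ι → Set Y) (f g : ι → Y → Y) (hV : ∀ i, IsOpen (V i))
    (hW : ∀ i, IsOpen (W i)) (dV : Pairwise fun i j => Disjoint (V i) (V j))
    (dW : Pairwise fun i j => Disjoint (W i) (W j)) (h : ∀ i, IsoF E (f i) (g i) (V i) (W i)) :
    ∃ F G, IsoF E F G (⋃ i, V i) (⋃ i, W i) ∧ (∀ i, ∀ x ∈ V i, F x = f i x) ∧
      ∀ i, ∀ y ∈ W i, G y = g i y := by
  obtain ⟨F, cF, hF⟩ := exists_glue_fun V f hV dV fun i => (h i).cf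
  obtain ⟨G, cG, hG⟩ := exists_glue_fun W g hW dW fun i => (h i).cg
  refine ⟨F, G, ⟨?_, ?_, ?_, ?_, cF, cG, ?_⟩, hF, hG⟩
  · intro x hx
    obtain ⟨i, hi⟩ := mem_iUnion.1 hx
    rw [hF i x hi]
    exact mem_iUnion.2 ⟨i, (h i).mf hi⟩
  · intro x hx
    obtain ⟨i, hi⟩ := mem_iUnion.1 hx
    rw [hG i x hi]
    exact mem_iUnion.2 ⟨i, (h i).mg hi⟩
  · intro x hx
    obtain ⟨i, hi⟩ := mem_iUnion.1 hx
    rw [hF i x hi, hG i _ ((h i).mf hi), (h i).gf x hi]
  · intro x hx
    obtain ⟨i, hi⟩ := mem_iUnion.1 hx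
    rw [hG i x hi, hF i _ ((h i).mg hi), (h i).fg x hi]
  · intro x hx
    obtain ⟨i, hi⟩ := mem_iUnion.1 hx
    rw [hF i x hi]
    exact (h i).rel x hi

theorem Iso.glue {ι : Type} {V W : ι → Set Y} (hV : ∀ i, IsOpen (V i))
    (hW : ∀ i, IsOpen (W i)) (dV : Pairwise fun i j => Disjoint (V i) (V j))
    (dW : Pairwise fun i j => Disjoint (W i) (W j)) (h : ∀ i, Iso E (V i) (W i)) :
    Iso E (⋃ i, V i) (⋃ i, W i) := by
  choose f g h using h
  obtain ⟨F, G, hFG, -⟩ := KR.glue V W f g hV hW dV dW h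
  exact ⟨F, G, hFG⟩

theorem Iso.union {V V' W W' : Set Y} (hV : IsOpen V) (hV' : IsOpen V') (hW : IsOpen W)
    (hW' : IsOpen W') (dV : Disjoint V V') (dW : Disjoint W W') (h : Iso E V W)
    (h' : Iso E V' W') : Iso E (V ∪ V') (W ∪ W') := by
  have := Iso.glue (E := E) (ι := Bool) (V := fun b => cond b V V') (W := fun b => cond b W W')
    (fun b => by cases b <;> assumption) (fun b => by cases b <;> assumption)
    (fun a b hab => by
      cases a <;> cases b <;> simp_all [dV.symm])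
    (fun a b hab => by
      cases a <;> cases b <;> simp_all [dW.symm])
    (fun b => by cases b <;> assumption)
  simpa [union_eq_iUnion] using this

/-- Every non-empty open set holds a discrete sequence of clopen copies of the whole space. -/
def Rich (E : Y → Y → Prop) : Prop :=
  ∀ U : Set Y, IsOpen U → U.Nonempty → ∃ A : ℕ → Set Y, (∀ n, IsClopen (A n)) ∧
    (Pairwise fun i j => Disjoint (A i) (A j)) ∧ IsClosed (⋃ n, A n) ∧ (∀ n, A n ⊆ U) ∧
    ∀ n, Iso E univ (A n)

theorem closed_sub_union {ι : Type} {A C : ι → Set Y} (hA : ∀ n, IsOpen (A n))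
    (dA : Pairwise fun i j => Disjoint (A i) (A j)) (hU : IsClosed (⋃ n, A n))
    (hC : ∀ n, IsClosed (C n)) (hCA : ∀ n, C n ⊆ A n) : IsClosed (⋃ n, C n) := by
  have : (⋃ n, C n)ᶜ = (⋃ n, A n)ᶜ ∪ ⋃ n, (A n \ C n) := by
    ext x
    simp only [mem_compl_iff, mem_iUnion, not_exists, mem_union, Set.mem_sdiff]
    constructor
    · intro h
      by_cases h1 : ∃ n, x ∈ A n
      · obtain ⟨n, hn⟩ := h1
        exact Or.inr ⟨n, hn, h n⟩
      · exact Or.inl fun n hn => h1 ⟨n, hn⟩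
    · rintro (h | ⟨n, hn, hn'⟩) m hm
      · exact h m (hCA m hm)
      · by_cases hmn : m = n
        · exact hn' (hmn ▸ hm)
        · exact Set.disjoint_left.1 (dA hmn) (hCA m hm) hn
  rw [← isOpen_compl_iff, this]
  exact hU.isOpen_compl.union (isOpen_iUnion fun n => (hA n).sdiff (hC n))

theorem exists_hotel (hE : Equivalence E) (hR : Rich E) {V W : Set Y} (hV : IsClopen V)
    (hne : V.Nonempty) (hW : IsClopen W) :
    ∃ C : Set Y, IsClopen C ∧ C ⊆ V ∧ Iso E W C ∧ Iso E (V \ C) V := by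
  obtain ⟨A, hA, dA, hU, hAV, hI⟩ := hR V hV.isOpen hne
  choose f g h using hI
  let C : ℕ → Set Y := fun n => f n '' W
  have hC : ∀ n, IsClopen (C n) := fun n => (h n).isClopen_image (subset_univ _) (hA n) hW
  have hCA : ∀ n, C n ⊆ A n := fun n => by
    rintro y ⟨x, -, rfl⟩
    exact (h n).mf (mem_univ x)
  have hI : ∀ n, Iso E W (C n) := fun n => ⟨f n, g n, (h n).restrict (subset_univ _)⟩
  have dC : Pairwise fun i j => Disjoint (C i) (C j) := fun i j hij =>
    (dA hij).mono (hCA i) (hCA j)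
  have hCU : IsClosed (⋃ n, C n) :=
    closed_sub_union (fun n => (hA n).isOpen) dA hU (fun n => (hC n).isClosed) hCA
  refine ⟨C 0, hC 0, (hCA 0).trans (hAV 0), hI 0, ?_⟩
  have h1 : Iso E (⋃ n, C (n + 1)) (⋃ n, C n) :=
    Iso.glue (fun n => (hC _).isOpen) (fun n => (hC _).isOpen)
      (fun i j hij => dC (by omega)) dC fun n => ((hI _).symm hE).trans hE (hI _)
  have h2 := Iso.union (hV.isOpen.sdiff hCU) (isOpen_iUnion fun n => (hC (n + 1)).isOpen)
    (hV.isOpen.sdiff hCU) (isOpen_iUnion fun n => (hC n).isOpen)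
    (Set.disjoint_left.2 fun x hx hx' => hx.2 (by
      obtain ⟨n, hn⟩ := mem_iUnion.1 hx'
      exact mem_iUnion.2 ⟨n + 1, hn⟩))
    (Set.disjoint_left.2 fun x hx hx' => hx.2 hx') (Iso.refl hE _) h1
  have e1 : (V \ ⋃ n, C n) ∪ (⋃ n, C (n + 1)) = V \ C 0 := by
    ext x
    simp only [mem_union, Set.mem_sdiff, mem_iUnion, not_exists]
    constructor
    · rintro (⟨h1, h2⟩ | ⟨n, hn⟩)
      · exact ⟨h1, h2 0⟩
      · exact ⟨hAV _ (hCA _ hn), fun h0 => Set.disjoint_left.1 (dC (by omega)) hn h0⟩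
    · rintro ⟨h1, h2⟩
      by_cases h3 : ∃ n, x ∈ C n
      · obtain ⟨n, hn⟩ := h3
        cases n with
        | zero => exact absurd hn h2
        | succ n => exact Or.inr ⟨n, hn⟩
      · exact Or.inl ⟨h1, fun n hn => h3 ⟨n, hn⟩⟩
  have e2 : (V \ ⋃ n, C n) ∪ (⋃ n, C n) = V :=
    sdiff_union_of_subset (iUnion_subset fun n => (hCA n).trans (hAV n))
  rwa [e1, e2] at h2

/-- Any two non-empty clopen sets are isomorphic. -/
theorem homog (hE : Equivalence E) (hR : Rich E) {V W : Set Y} (hV : IsClopen V)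
    (hne : V.Nonempty) (hW : IsClopen W) (hne' : W.Nonempty) : Iso E V W := by
  obtain ⟨C, hC, hCV, h1, h2⟩ := exists_hotel hE hR hV hne hW
  obtain ⟨D, hD, hDW, h3, h4⟩ := exists_hotel hE hR hW hne' hV
  have := Iso.union (hV.isOpen.sdiff hC.isClosed) hC.isOpen hD.isOpen
    (hW.isOpen.sdiff hD.isClosed) disjoint_sdiff_left disjoint_sdiff_right
    (h2.trans hE h3) ((h1.symm hE).trans hE (h4.symm hE))
  rwa [sdiff_union_of_subset hCV, union_sdiff_cancel hDW] at this

section Ext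

variable (Θ : Y → ℕ → ℕ)

/-- Points that agree with `y` in the first `n` coordinates. -/
def bl (y : Y) (n : ℕ) : Set Y := {z | ∀ i < n, Θ z i = Θ y i}

def pr (y : Y) (n : ℕ) : List ℕ := (List.range n).map (Θ y)

variable {Θ}

omit [TopologicalSpace Y] in
theorem length_pr (y : Y) (n : ℕ) : (pr Θ y n).length = n := by simp [pr]

omit [TopologicalSpace Y] in
theorem pr_eq_iff {y z : Y} {n : ℕ} : pr Θ z n = pr Θ y n ↔ z ∈ bl Θ y n := by
  simp [pr, bl]

omit [TopologicalSpace Y] in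
theorem self_bl (y : Y) (n : ℕ) : y ∈ bl Θ y n := fun _ _ => rfl

omit [TopologicalSpace Y] in
theorem bl_symm {y z : Y} {n : ℕ} (h : z ∈ bl Θ y n) : y ∈ bl Θ z n := fun i hi => (h i hi).symm

omit [TopologicalSpace Y] in
theorem bl_trans {y z w : Y} {n m k : ℕ} (h : z ∈ bl Θ y n) (h' : w ∈ bl Θ z m) (hk : k ≤ n)
    (hk' : k ≤ m) : w ∈ bl Θ y k := fun i hi => (h' i (by omega)).trans (h i (by omega))

omit [TopologicalSpace Y] in
theorem bl_mono {y z : Y} {n k : ℕ} (h : z ∈ bl Θ y n) (hk : k ≤ n) : z ∈ bl Θ y k :=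
  fun i hi => h i (by omega)

theorem isClopen_bl (hΘ : IsInducing Θ) (y : Y) (n : ℕ) : IsClopen (bl Θ y n) := by
  have : bl Θ y n = ⋂ i ∈ Finset.range n, (fun z => Θ z i) ⁻¹' {Θ y i} := by
    ext z
    simp [bl]
  rw [this]
  refine isClopen_biInter_finset fun i _ => ?_
  exact (isClopen_discrete _).preimage ((continuous_apply i).comp hΘ.continuous)

theorem exists_bl (hΘ : IsInducing Θ) {y : Y} {U : Set Y} (hU : U ∈ 𝓝 y) :
    ∃ n, bl Θ y n ⊆ U := by
  rw [hΘ.nhds_eq_comap, mem_comap] at hU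
  obtain ⟨T, hT, hTU⟩ := hU
  rw [nhds_pi] at hT
  obtain ⟨I, t, ht, hI⟩ := Filter.mem_pi'.1 hT
  refine ⟨I.sup id + 1, fun z hz => hTU (hI fun i hi => ?_)⟩
  rw [hz i (Nat.lt_succ_of_le (Finset.le_sup (f := id) hi))]
  exact mem_of_mem_nhds (ht i)

/-- Extension of an involution of a closed nowhere dense set. -/
theorem extend (hE : Equivalence E) (hR : Rich E) (hΘ : IsInducing Θ) {B : Set Y}
    (hB : IsClosed B) (hBi : interior B = ∅) (hne : B.Nonempty) {σ : Y → Y}
    (hm : MapsTo σ B B) (hσ : ∀ x ∈ B, σ (σ x) = x) (hc : ContinuousOn σ B)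
    (hrel : ∀ x ∈ B, E x (σ x)) :
    ∃ γ : Y ≃ₜ Y, (∀ y, E y (γ y)) ∧ ∀ x ∈ B, γ x = σ x := by
  classical
  have hex : ∀ y, y ∉ B → ∃ n, Disjoint (bl Θ y n) B := fun y hy => by
    obtain ⟨n, hn⟩ := exists_bl hΘ (hB.isOpen_compl.mem_nhds hy)
    exact ⟨n, Set.disjoint_left.2 fun z hz hz' => hn hz hz'⟩
  let lev : Y → ℕ := fun y => if h : ∃ n, Disjoint (bl Θ y n) B then Nat.find h else 0
  have lev_spec : ∀ y, y ∉ B → Disjoint (bl Θ y (lev y)) B := fun y hy => by
    simp only [lev, dif_pos (hex y hy)]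
    exact Nat.find_spec (hex y hy)
  have lev_min : ∀ y, y ∉ B → ∀ m < lev y, ∃ b ∈ B, b ∈ bl Θ y m := fun y hy m hm => by
    simp only [lev, dif_pos (hex y hy)] at hm
    have := Nat.find_min (hex y hy) hm
    rw [Set.not_disjoint_iff] at this
    obtain ⟨b, h1, h2⟩ := this
    exact ⟨b, h2, h1⟩
  have lev_gt : ∀ y, y ∉ B → ∀ b ∈ B, ∀ m, b ∈ bl Θ y m → m < lev y := fun y hy b hb m hm => by
    by_contra hlt
    exact Set.disjoint_left.1 (lev_spec y hy) (bl_mono hm (by omega)) hb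
  have lev_congr : ∀ y, y ∉ B → ∀ z ∈ bl Θ y (lev y), z ∉ B ∧ lev z = lev y := by
    intro y hy z hz
    have hzB : z ∉ B := Set.disjoint_left.1 (lev_spec y hy) hz
    refine ⟨hzB, le_antisymm ?_ ?_⟩
    · by_contra hlt
      obtain ⟨b, hb, hb'⟩ := lev_min z hzB (lev y) (by omega)
      exact Set.disjoint_left.1 (lev_spec y hy) (bl_trans hz hb' le_rfl le_rfl) hb
    · by_contra hlt
      obtain ⟨b, hb, hb'⟩ := lev_min y hy (lev z) (by omega)
      exact Set.disjoint_left.1 (lev_spec z hzB)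
        (bl_trans (bl_symm hz) hb' (by omega) le_rfl) hb
  let key : Y → List ℕ := fun y => pr Θ y (lev y)
  let K : Type := {l : List ℕ // ∃ y, y ∉ B ∧ key y = l}
  let pc : K → Set Y := fun l => {y | y ∉ B ∧ key y = l.1}
  have len_key : ∀ y, (key y).length = lev y := fun y => length_pr _ _
  have pc_eq : ∀ (l : K), ∀ y ∈ pc l, pc l = bl Θ y l.1.length := by
    intro l y hy
    have e0 : l.1.length = lev y := by rw [← hy.2, len_key]
    ext z
    constructor
    · intro hz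
      have e1 : lev z = lev y := by rw [← len_key, ← len_key, hz.2, hy.2]
      have e2 : key z = key y := hz.2.trans hy.2.symm
      simp only [key, e1] at e2
      rw [e0]
      exact pr_eq_iff.1 e2
    · intro hz
      rw [e0] at hz
      obtain ⟨h1, h2⟩ := lev_congr y hy.1 z hz
      refine ⟨h1, ?_⟩
      rw [← hy.2]
      simp only [key, h2]
      exact pr_eq_iff.2 hz
  have pc_ne : ∀ l : K, (pc l).Nonempty := fun l => l.2
  have pc_clopen : ∀ l : K, IsClopen (pc l) := fun l => by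
    obtain ⟨y, hy⟩ := pc_ne l
    rw [pc_eq l y hy]
    exact isClopen_bl hΘ _ _
  have pc_disj : Pairwise fun l l' : K => Disjoint (pc l) (pc l') := fun l l' h =>
    Set.disjoint_left.2 fun y hy hy' => h (Subtype.ext (hy.2.symm.trans hy'.2))
  have pc_len : ∀ (l : K), ∀ y ∈ pc l, ∀ b ∈ B, ∀ m, b ∈ bl Θ y m → m < l.1.length := by
    intro l y hy b hb m hm
    rw [← hy.2, len_key]
    exact lev_gt y hy.1 b hb m hm
  have hA : ∀ l : K, ∃ a ∈ B, ∀ y ∈ pc l, a ∈ bl Θ y (l.1.length - 1) := fun l => by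
    obtain ⟨y, hy⟩ := pc_ne l
    obtain ⟨b, hb⟩ := hne
    have h0 : 0 < l.1.length := pc_len l y hy b hb 0 (fun i hi => by omega)
    obtain ⟨a, ha, ha'⟩ := lev_min y hy.1 (l.1.length - 1) (by rw [← len_key, hy.2]; omega)
    refine ⟨a, ha, fun z hz => ?_⟩
    rw [pc_eq l y hy] at hz
    exact bl_trans (bl_symm hz) ha' (by omega) le_rfl
  choose a haB ha using hA
  have hK : Nonempty K := by
    have : ∃ y, y ∉ B := by
      by_contra h
      push Not at h
      have : B = univ := eq_univ_of_forall h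
      rw [this, interior_univ] at hBi
      obtain ⟨b, -⟩ := hne
      exact (hBi ▸ mem_univ b : b ∈ (∅ : Set Y))
    obtain ⟨y, hy⟩ := this
    exact ⟨⟨key y, y, hy, rfl⟩⟩
  have hT : ∀ u : List ℕ, ∃ l : K, ∀ b ∈ B, pr Θ b u.length = u → pc l ⊆ bl Θ b u.length := by
    intro u
    by_cases h : ∃ b ∈ B, pr Θ b u.length = u
    · obtain ⟨b, hb, hbu⟩ := h
      have : ∃ y ∈ bl Θ b u.length, y ∉ B := by
        by_contra h
        push Not at h
        have : b ∈ interior B :=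
          interior_maximal h (isClopen_bl hΘ b _).isOpen (self_bl b _)
        rw [hBi] at this
        exact this
      obtain ⟨y, hy, hyB⟩ := this
      refine ⟨⟨key y, y, hyB, rfl⟩, fun b' hb' hbu' z hz => ?_⟩
      have hy' : y ∈ pc ⟨key y, y, hyB, rfl⟩ := ⟨hyB, rfl⟩
      have h1 := pc_len _ y hy' b hb _ (bl_symm hy)
      rw [pc_eq _ y hy'] at hz
      have h2 : b ∈ bl Θ b' u.length := pr_eq_iff.1 (hbu.trans hbu'.symm)
      exact bl_trans h2 (bl_trans hy hz le_rfl h1.le) le_rfl le_rfl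
    · exact ⟨hK.some, fun b hb hbu => absurd ⟨b, hb, hbu⟩ h⟩
  choose tgt htgt using hT
  let f : K → K := fun l => tgt (pr Θ (σ (a l)) l.1.length)
  have hf : ∀ l : K, pc (f l) ⊆ bl Θ (σ (a l)) l.1.length := fun l => by
    have := htgt (pr Θ (σ (a l)) l.1.length) (σ (a l)) (hm (haB l)) (by rw [length_pr])
    rwa [length_pr] at this
  choose C hC dC hCU hCp hCI using fun l : K => hR (pc l) (pc_clopen l).isOpen (pc_ne l)
  have C_ne : ∀ l n, (C l n).Nonempty := fun l n => by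
    obtain ⟨φ, ψ, h⟩ := hCI l n
    obtain ⟨b, -⟩ := hne
    exact ⟨φ b, h.mf (mem_univ b)⟩
  let cd : K → ℕ := fun j => Encodable.encode j.1 + 1
  have cd_inj : Function.Injective cd := fun i j h =>
    Subtype.ext (Encodable.encode_injective (by simpa [cd] using h))
  let prt : K → Set Y := fun j => C (f j) (cd j)
  let own : K → Set Y := fun l => pc l \ ⋃ j : K, ⋃ _ : f j = l, prt j
  have prt_sub : ∀ j, prt j ⊆ pc (f j) := fun j => hCp _ _
  have prt_disj : Pairwise fun i j : K => Disjoint (prt i) (prt j) := by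
    intro i j hij
    by_cases h : f i = f j
    · have := dC (f j) (cd_inj.ne hij)
      simp only [prt, h]
      exact this
    · exact (pc_disj h).mono (prt_sub i) (prt_sub j)
  have own_clopen : ∀ l, IsClopen (own l) := fun l => by
    refine (pc_clopen l).diff ⟨?_, isOpen_iUnion fun j => isOpen_iUnion fun _ => (hC _ _).isOpen⟩
    have h1 := closed_sub_union (A := C l) (C := fun n => ⋃ _ : (∃ j, f j = l ∧ cd j = n), C l n)
      (fun n => (hC l n).isOpen) (dC l) (hCU l) (fun n => by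
        by_cases h : ∃ j, f j = l ∧ cd j = n
        · simpa [h] using (hC l n).isClosed
        · simp [h]) (fun n => iUnion_subset fun _ => Subset.rfl)
    convert h1 using 1
    ext x
    simp only [mem_iUnion, prt]
    constructor
    · rintro ⟨j, hj, hx⟩
      exact ⟨cd j, ⟨j, hj, rfl⟩, hj ▸ hx⟩
    · rintro ⟨n, ⟨j, hj, hn⟩, hx⟩
      exact ⟨j, hj, by rw [hj, hn]; exact hx⟩
  have own_ne : ∀ l, (own l).Nonempty := fun l => by
    obtain ⟨x, hx⟩ := C_ne l 0
    refine ⟨x, hCp _ _ hx, fun h => ?_⟩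
    simp only [mem_iUnion, prt] at h
    obtain ⟨j, hj, h⟩ := h
    rw [hj] at h
    exact Set.disjoint_left.1 (dC l (show 0 ≠ cd j by simp [cd])) hx h
  have own_prt : ∀ l j, Disjoint (own l) (prt j) := fun l j =>
    Set.disjoint_left.2 fun x hx hx' => by
      by_cases h : f j = l
      · exact hx.2 (mem_iUnion.2 ⟨j, mem_iUnion.2 ⟨h, hx'⟩⟩)
      · exact Set.disjoint_left.1 (pc_disj h) (prt_sub j hx') hx.1
  have own_disj : Pairwise fun i j : K => Disjoint (own i) (own j) := fun i j h =>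
    (pc_disj h).mono sdiff_subset sdiff_subset
  choose φ ψ hφ using fun l : K =>
    homog hE hR (own_clopen l) (own_ne l) (hC (f l) (cd l)) (C_ne _ _)
  let V : K × Bool → Set Y := fun p => cond p.2 (own p.1) (prt p.1)
  have V_open : ∀ p, IsOpen (V p) := by
    rintro ⟨l, _ | _⟩
    · exact (hC _ _).isOpen
    · exact (own_clopen l).isOpen
  have V_disj : Pairwise fun p q => Disjoint (V p) (V q) := by
    rintro ⟨l, _ | _⟩ ⟨l', _ | _⟩ h
    · exact prt_disj fun e => h (Prod.ext e rfl)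
    · exact (own_prt _ _).symm
    · exact own_prt _ _
    · exact own_disj fun e => h (Prod.ext e rfl)
  have V_cov : ∀ y, y ∉ B → ∃ p, y ∈ V p := fun y hy => by
    by_cases h : y ∈ own ⟨key y, y, hy, rfl⟩
    · exact ⟨(_, true), h⟩
    · have h1 : y ∈ pc ⟨key y, y, hy, rfl⟩ := ⟨hy, rfl⟩
      have h2 := not_not.1 fun h2 => h ⟨h1, h2⟩
      simp only [mem_iUnion] at h2
      obtain ⟨j, -, hj⟩ := h2
      exact ⟨(j, false), hj⟩
  obtain ⟨F, cF, hF⟩ := exists_glue_fun V (fun p => cond p.2 (φ p.1) (ψ p.1)) V_open V_disj (by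
    rintro ⟨l, _ | _⟩
    · exact (hφ l).cg
    · exact (hφ l).cf)
  have hF1 : ∀ l, ∀ x ∈ own l, F x = φ l x := fun l x hx => hF (l, true) x hx
  have hF2 : ∀ l, ∀ x ∈ prt l, F x = ψ l x := fun l x hx => hF (l, false) x hx
  have F_prop : ∀ y, y ∉ B → F y ∉ B ∧ F (F y) = y ∧ E y (F y) := fun y hy => by
    obtain ⟨⟨l, _ | _⟩, hp⟩ := V_cov y hy
    · have h1 := (hφ l).mg hp
      rw [hF2 l y hp, hF1 l _ h1]
      exact ⟨h1.1.1, (hφ l).fg y hp, ((hφ l).symm hE).rel y hp⟩
    · have h1 := (hφ l).mf hp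
      rw [hF1 l y hp, hF2 l _ h1]
      exact ⟨(prt_sub l h1).1, (hφ l).gf y hp, (hφ l).rel y hp⟩
  let γ : Y → Y := fun y => if y ∈ B then σ y else F y
  have γγ : ∀ y, γ (γ y) = y := fun y => by
    by_cases hy : y ∈ B
    · simp only [γ, if_pos hy, if_pos (hm hy)]
      exact hσ y hy
    · simp only [γ, if_neg hy, if_neg (F_prop y hy).1]
      exact (F_prop y hy).2.1
  have γc : Continuous γ := by
    rw [continuous_iff_continuousAt]
    intro b
    by_cases hb : b ∈ B
    · have key2 : ∀ n, ∃ m, ∀ y ∈ bl Θ b m, γ y ∈ bl Θ (σ b) n := by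
        intro n
        have h1 : σ ⁻¹' bl Θ (σ b) n ∈ 𝓝[B] b :=
          hc b hb ((isClopen_bl hΘ _ _).isOpen.mem_nhds (self_bl _ _))
        rw [mem_nhdsWithin_iff_exists_mem_nhds_inter] at h1
        obtain ⟨U, hU, hUB⟩ := h1
        obtain ⟨m0, hm0⟩ := exists_bl hΘ hU
        have h2 : ∀ x ∈ B, x ∈ bl Θ b (max m0 n) → σ x ∈ bl Θ (σ b) n := fun x hx hx' =>
          hUB ⟨hm0 (bl_mono hx' (le_max_left _ _)), hx⟩
        generalize hm1 : max m0 n = m1 at h2
        have hn1 : n ≤ m1 := hm1 ▸ le_max_right _ _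
        let m2 := (Finset.range (m1 + 1)).sup fun q => (tgt (pr Θ b q)).1.length
        refine ⟨max m1 m2, fun y hy => ?_⟩
        by_cases hyB : y ∈ B
        · simp only [γ, if_pos hyB]
          exact h2 y hyB (bl_mono hy (le_max_left _ _))
        · simp only [γ, if_neg hyB]
          obtain ⟨⟨l, _ | _⟩, hp⟩ := V_cov y hyB
          · have hp1 : y ∈ pc (f l) := prt_sub l hp
            have hp2 := hf l hp1
            have hl := pc_len _ y hp1 b hb _ (bl_symm hy)
            have hlen : m1 < l.1.length := by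
              by_contra hle
              have e1 : pr Θ (σ (a l)) l.1.length = pr Θ b l.1.length :=
                pr_eq_iff.2 (bl_trans hy (bl_symm hp2) (by omega) le_rfl)
              have e2 : (f l).1.length ≤ m2 := by
                simp only [f, e1]
                exact Finset.le_sup (f := fun q => (tgt (pr Θ b q)).1.length)
                  (Finset.mem_range.2 (by omega))
              omega
            have h3 := h2 _ (hm (haB l)) (bl_trans hy (bl_symm hp2) (by omega) hlen.le)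
            rw [hσ _ (haB l)] at h3
            have h4 : F y ∈ pc l := by
              rw [hF2 l y hp]
              exact ((hφ l).mg hp).1
            exact bl_trans h3 (bl_symm (ha l _ h4)) le_rfl (by omega)
          · have hp1 : y ∈ pc l := hp.1
            have hl := pc_len _ y hp1 b hb _ (bl_symm hy)
            have h3 := h2 _ (haB l) (bl_trans hy (ha l y hp1) (by omega) (by omega))
            have h4 : F y ∈ pc (f l) := by
              rw [hF1 l y hp]
              exact prt_sub l ((hφ l).mf hp)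
            exact bl_trans h3 (hf l h4) le_rfl (by omega)
      intro U hU
      have e : γ b = σ b := if_pos hb
      rw [e] at hU
      obtain ⟨n, hn⟩ := exists_bl hΘ hU
      obtain ⟨m, hm'⟩ := key2 n
      rw [mem_map]
      exact mem_of_superset ((isClopen_bl hΘ b m).isOpen.mem_nhds (self_bl _ _))
        fun y hy => hn (hm' y hy)
    · have h1 : ContinuousAt F b := cF.continuousAt
        ((isOpen_iUnion V_open).mem_nhds (mem_iUnion.2 (V_cov b hb)))
      refine h1.congr ?_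
      filter_upwards [hB.isOpen_compl.mem_nhds hb] with y hy
      exact (if_neg hy).symm
  refine ⟨⟨⟨γ, γ, γγ, γγ⟩, γc, γc⟩, fun y => ?_, fun x hx => if_pos hx⟩
  change E y (γ y)
  by_cases hy : y ∈ B
  · simp only [γ, if_pos hy]
    exact hrel y hy
  · simp only [γ, if_neg hy]
    exact (F_prop y hy).2.2

theorem ext_closed (hE : Equivalence E) (hR : Rich E) (hΘ : IsInducing Θ) {A A' V V' : Set Y}
    {f g : Y → Y} (h : IsoF E f g A A') (hA : IsClosed A) (hA' : IsClosed A')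
    (iA : interior A = ∅) (iA' : interior A' = ∅) (hV : IsClopen V) (hV' : IsClopen V')
    (hd : Disjoint V V') :
    ∃ γ : Y ≃ₜ Y, (∀ y, E y (γ y)) ∧ ∀ x ∈ A, x ∈ V → f x ∈ V' → γ x = f x := by
  classical
  let A1 := (A ∩ f ⁻¹' V') ∩ V
  let A2 := (A' ∩ g ⁻¹' V) ∩ V'
  have c1 : IsClosed A1 := (h.cf.preimage_isClosed_of_isClosed hA hV'.isClosed).inter hV.isClosed
  have c2 : IsClosed A2 := (h.cg.preimage_isClosed_of_isClosed hA' hV.isClosed).inter hV'.isClosed
  by_cases hne : (A1 ∪ A2).Nonempty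
  · let σ : Y → Y := fun x => if x ∈ V then f x else g x
    have s1 : ∀ x ∈ A1, σ x = f x := fun x hx => if_pos hx.2
    have s2 : ∀ x ∈ A2, σ x = g x := fun x hx =>
      if_neg fun hx' => Set.disjoint_left.1 hd hx' hx.2
    have m1 : ∀ x ∈ A1, f x ∈ A2 := fun x hx =>
      ⟨⟨h.mf hx.1.1, by simpa [h.gf x hx.1.1] using hx.2⟩, hx.1.2⟩
    have m2 : ∀ x ∈ A2, g x ∈ A1 := fun x hx =>
      ⟨⟨h.mg hx.1.1, by simpa [h.fg x hx.1.1] using hx.2⟩, hx.1.2⟩
    have hi : interior (A1 ∪ A2) = ∅ := by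
      have i2 : interior A2 = ∅ := subset_empty_iff.1
        (iA' ▸ interior_mono (inter_subset_left.trans inter_subset_left))
      rw [interior_union_isClosed_of_interior_empty c1 i2]
      exact subset_empty_iff.1 (iA ▸ interior_mono (inter_subset_left.trans inter_subset_left))
    obtain ⟨γ, h1, h2⟩ := extend hE hR hΘ (c1.union c2) hi hne (σ := σ)
      (by
        rintro x (hx | hx)
        · rw [s1 x hx]; exact Or.inr (m1 x hx)
        · rw [s2 x hx]; exact Or.inl (m2 x hx))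
      (by
        rintro x (hx | hx)
        · rw [s1 x hx, s2 _ (m1 x hx), h.gf x hx.1.1]
        · rw [s2 x hx, s1 _ (m2 x hx), h.fg x hx.1.1])
      (ContinuousOn.union_of_isClosed
        ((h.cf.mono (inter_subset_left.trans inter_subset_left)).congr s1)
        ((h.cg.mono (inter_subset_left.trans inter_subset_left)).congr s2) c1 c2)
      (by
        rintro x (hx | hx)
        · rw [s1 x hx]; exact h.rel x hx.1.1
        · rw [s2 x hx]; exact (h.symm hE).rel x hx.1.1)
    exact ⟨γ, h1, fun x hx hx' hx'' => by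
      rw [h2 x (Or.inl ⟨⟨hx, hx''⟩, hx'⟩), s1 x ⟨⟨hx, hx''⟩, hx'⟩]⟩
  · exact ⟨Homeomorph.refl Y, fun y => hE.refl y, fun x hx hx' hx'' =>
      absurd ⟨x, Or.inl ⟨⟨hx, hx''⟩, hx'⟩⟩ hne⟩

end Ext

theorem ext_clopen (hE : Equivalence E) {A A' : Set Y} {f g : Y → Y} (h : IsoF E f g A A')
    (hA : IsClopen A) (hA' : IsClopen A') (hd : Disjoint A A') :
    ∃ γ : Y ≃ₜ Y, (∀ y, E y (γ y)) ∧ ∀ x ∈ A, γ x = f x := by
  let V : Option Bool → Set Y := fun o => o.elim (A ∪ A')ᶜ fun b => cond b A A'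
  let W : Option Bool → Set Y := fun o => o.elim (A ∪ A')ᶜ fun b => cond b A' A
  have hC : IsOpen (A ∪ A')ᶜ := (hA.union hA').compl.isOpen
  have d1 : Disjoint (A ∪ A')ᶜ A := disjoint_compl_left.mono_right subset_union_left
  have d2 : Disjoint (A ∪ A')ᶜ A' := disjoint_compl_left.mono_right subset_union_right
  obtain ⟨F, G, hFG, hF, -⟩ := glue (E := E) V W (fun o => o.elim id fun b => cond b f g)
    (fun o => o.elim id fun b => cond b g f)
    (by rintro (_ | _ | _); exacts [hC, hA'.isOpen, hA.isOpen])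
    (by rintro (_ | _ | _); exacts [hC, hA.isOpen, hA'.isOpen])
    (by
      rintro (_ | _ | _) (_ | _ | _) hne
      exacts [absurd rfl hne, d2, d1, d2.symm, absurd rfl hne, hd.symm, d1.symm, hd,
        absurd rfl hne])
    (by
      rintro (_ | _ | _) (_ | _ | _) hne
      exacts [absurd rfl hne, d1, d2, d1.symm, absurd rfl hne, hd, d2.symm, hd.symm,
        absurd rfl hne])
    (by rintro (_ | _ | _); exacts [IsoF.refl hE _, h.symm hE, h])
  have eV : (⋃ o, V o) = univ := eq_univ_of_forall fun x => by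
    by_cases h1 : x ∈ A ∪ A'
    · rcases h1 with h1 | h1
      · exact mem_iUnion.2 ⟨some true, h1⟩
      · exact mem_iUnion.2 ⟨some false, h1⟩
    · exact mem_iUnion.2 ⟨none, h1⟩
  have eW : (⋃ o, W o) = univ := eq_univ_of_forall fun x => by
    by_cases h1 : x ∈ A ∪ A'
    · rcases h1 with h1 | h1
      · exact mem_iUnion.2 ⟨some false, h1⟩
      · exact mem_iUnion.2 ⟨some true, h1⟩
    · exact mem_iUnion.2 ⟨none, h1⟩
  rw [eV, eW] at hFG
  exact ⟨⟨⟨F, G, fun x => hFG.gf x (mem_univ x), fun x => hFG.fg x (mem_univ x)⟩,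
    continuousOn_univ.1 hFG.cf, continuousOn_univ.1 hFG.cg⟩, fun y => hFG.rel y (mem_univ y),
    fun x hx => hF (some true) x hx⟩

theorem pack (hE : Equivalence E) (φ : Y ≃ₜ (ℕ → ℕ)) {K : Type} [Countable K]
    (S : K → Y → Y → Prop)
    (hS : ∀ k, ∃ γ : Y ≃ₜ Y, (∀ y, E y (γ y)) ∧ ∀ x y, S k x y → γ x = y)
    (hcov : ∀ x y, E x y → ∃ k, S k x y) :
    ∃ (Γ : Type) (_ : Group Γ) (_ : Countable Γ) (_ : MulAction Γ (ℕ → ℕ)),
      ContinuousConstSMul Γ (ℕ → ℕ) ∧ ∀ x y, E x y ↔ ∃ g : Γ, g • φ x = φ y := by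
  choose γ h1 h2 using hS
  let ρ : FreeGroup K →* (Y ≃ₜ Y) := FreeGroup.lift γ
  let act : MulAction (FreeGroup K) (ℕ → ℕ) :=
    { smul := fun g u => φ (ρ g (φ.symm u))
      one_smul := fun u => by
        change φ (ρ 1 (φ.symm u)) = u
        simp
      mul_smul := fun g g' u => by
        change φ (ρ (g * g') (φ.symm u)) = φ (ρ g (φ.symm (φ (ρ g' (φ.symm u)))))
        simp }
  have hρ : ∀ g y, E y (ρ g y) := by
    intro g
    induction g using FreeGroup.induction_on with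
    | C1 => intro y; simpa using hE.refl y
    | of k => intro y; simpa [ρ] using h1 k y
    | inv_of k _ =>
      intro y
      have := h1 k ((γ k).symm y)
      rw [Homeomorph.apply_symm_apply] at this
      simpa [ρ] using hE.symm this
    | mul g g' ih ih' =>
      intro y
      rw [map_mul]
      exact hE.trans (ih' y) (ih _)
  refine ⟨FreeGroup K, inferInstance, inferInstance, act, ⟨fun g => ?_⟩, fun x y => ⟨?_, ?_⟩⟩
  · change Continuous fun u => φ (ρ g (φ.symm u))
    fun_prop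
  · intro h
    obtain ⟨k, hk⟩ := hcov x y h
    refine ⟨FreeGroup.of k, ?_⟩
    change φ (ρ _ (φ.symm (φ x))) = φ y
    simp [ρ, h2 k x y hk]
  · rintro ⟨g, hg⟩
    change φ (ρ g (φ.symm (φ x))) = φ y at hg
    rw [Homeomorph.symm_apply_apply] at hg
    rw [← φ.injective hg]
    exact hρ g x

end Pool.Agent.H874Z.KR
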