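import Pool.Agent.H874Z.Sys

set_option autoImplicit false

namespace Pool.Agent.H874Z.Sy

open Set Filter Topology

section levels

variable (e : ℕ → (ℕ × X ≃ X))

def mu : ℕ → (ℕ → ℕ) → X → X
  | 0, _, y => y
  | t + 1, s, y => mu t s (e t (s t, y))

def res : ℕ → X → X
  | 0, x => x
  | t + 1, x => ((e t).symm (res t x)).2

def it (x : X) (t : ℕ) : ℕ := ((e t).symm (res e t x)).1

variable {e}

theorem mu_congr {t : ℕ} {s s' : ℕ → ℕ} (h : ∀ i < t, s i = s' i) : mu e t s = mu e t s' := by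
  induction t with
  | zero => rfl
  | succ t ih =>
    funext y
    simp only [mu]
    rw [ih fun i hi => h i (by omega), h t (by omega)]

theorem mu_res (t : ℕ) (x : X) : mu e t (it e x) (res e t x) = x := by
  induction t with
  | zero => rfl
  | succ t ih =>
    simp only [mu, res, it]
    rw [Prod.mk.eta, Equiv.apply_symm_apply]
    exact ih

theorem res_mu (t : ℕ) (s : ℕ → ℕ) (y : X) : res e t (mu e t s y) = y := by
  induction t generalizing y with
  | zero => rfl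
  | succ t ih => simp only [mu, res, ih, Equiv.symm_apply_apply]

theorem it_mu {t i : ℕ} (hi : i < t) (s : ℕ → ℕ) (y : X) : it e (mu e t s y) i = s i := by
  induction t generalizing y with
  | zero => omega
  | succ t ih =>
    simp only [mu]
    rcases Nat.lt_succ_iff_lt_or_eq.1 hi with h | rfl
    · exact ih h _
    · simp only [it, res_mu, Equiv.symm_apply_apply]

theorem res_congr {k t : ℕ} {x y : X} (h : res e k x = res e k y) (ht : k ≤ t) :
    res e t x = res e t y := by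
  induction t, ht using Nat.le_induction with
  | base => exact h
  | succ t _ ih => simp only [res, ih]

theorem it_congr {k t : ℕ} {x y : X} (h : res e k x = res e k y) (ht : k ≤ t) :
    it e x t = it e y t := by
  simp only [it, res_congr h ht]

theorem mu_congr_e {e e' : ℕ → (ℕ × X ≃ X)} {t : ℕ} (h : ∀ i < t, e i = e' i) :
    mu e t = mu e' t := by
  induction t with
  | zero => rfl
  | succ t ih =>
    funext s y
    simp only [mu]
    rw [ih fun i hi => h i (by omega), h t (by omega)]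

theorem res_congr_e {e e' : ℕ → (ℕ × X ≃ X)} {t : ℕ} (h : ∀ i < t, e i = e' i) :
    res e t = res e' t := by
  induction t with
  | zero => rfl
  | succ t ih =>
    funext y
    simp only [res]
    rw [ih fun i hi => h i (by omega), h t (by omega)]

theorem it_congr_e {e e' : ℕ → (ℕ × X ≃ X)} {t : ℕ} (h : ∀ i < t, e i = e' i) (x : X) :
    ∀ i < t, it e x i = it e' x i := fun i hi => by
  simp only [it]
  rw [res_congr_e (t := i) fun j hj => h j (by omega), h i hi]

theorem T_mu {S : Sys} (h : ∀ t i, S.T fun y => e t (i, y)) (t : ℕ) (s : ℕ → ℕ) :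
    S.T (mu e t s) := by
  induction t with
  | zero => exact Sys.T_id
  | succ t ih => exact ih.comp (h t (s t))

end levels

theorem exists_seq {α : Type} [Inhabited α] (Q : ℕ → (ℕ → α) → α → Prop)
    (hc : ∀ t e e' a, (∀ i < t, e i = e' i) → Q t e a → Q t e' a) (hex : ∀ t e, ∃ a, Q t e a) :
    ∃ e : ℕ → α, ∀ t, Q t e (e t) := by
  classical
  choose c hc' using hex
  let F : (t : ℕ) → ((m : ℕ) → m < t → α) → α := fun t g =>
    c t fun i => if h : i < t then g i h else default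
  let e : ℕ → α := fun t => Nat.strongRec (motive := fun _ => α) F t
  refine ⟨e, fun t => ?_⟩
  have : e t = c t fun i => if i < t then e i else default := by
    simp only [e]
    rw [Nat.strongRec_eq]
    rfl
  rw [this]
  exact hc t _ _ _ (fun i hi => if_pos hi) (hc' t _)

def bd (e : ℕ → (ℕ × X ≃ X)) (z : X) (t : ℕ) : ℕ := max t ((Finset.range t).sup (it e z))

theorem exists_levels (S : Sys) (z : ℕ → X) : ∃ e : ℕ → (ℕ × X ≃ X),
    (∀ t i, S.T fun y => e t (i, y)) ∧ ∀ t, ∀ s : ℕ → ℕ, (∀ i < t, s i ≤ bd e (z t) t) →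
      (∀ y, agr t (mu e t s (e t (0, y))) (mu e t s (res e t (z t)))) ∧
      ∀ n ≤ t, ∃ s', ∀ y w, S.R n (mu e t s (e t (0, y))) w → w = mu e (t + 1) s' y := by
  classical
  let α := {e : ℕ × X ≃ X // ∀ i, S.T fun y => e (i, y)}
  have hne : Nonempty α := by
    obtain ⟨e, he, -⟩ := Sys.step (S := S) (I := Unit) (M := fun _ => id) (fun _ => Sys.T_id)
      (fun x => ⟨(), x, rfl⟩) finite_empty (by simp) (fun _ => false) 0
    exact ⟨⟨e, he⟩⟩
  let _ : Inhabited α := ⟨hne.some⟩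
  let Q : ℕ → (ℕ → α) → α → Prop := fun t e a => ∀ s : ℕ → ℕ,
    (∀ i < t, s i ≤ bd (fun i => (e i).1) (z t) t) →
      (∀ y, agr t (mu (fun i => (e i).1) t s (a.1 (0, y)))
        (mu (fun i => (e i).1) t s (res (fun i => (e i).1) t (z t)))) ∧
      ∀ n ≤ t, ∃ s' i, ∀ y w, S.R n (mu (fun i => (e i).1) t s (a.1 (0, y))) w →
        w = mu (fun i => (e i).1) t s' (a.1 (i, y))
  obtain ⟨e, he⟩ := exists_seq Q (by
      intro t e e' a h hQ
      have h' : ∀ i < t, (fun i => (e i).1) i = (fun i => (e' i).1) i := fun i hi => by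
        simp only [h i hi]
      have hb : bd (fun i => (e i).1) (z t) t = bd (fun i => (e' i).1) (z t) t := by
        simp only [bd]
        congr 1
        exact Finset.sup_congr rfl fun i hi => it_congr_e h' _ i (Finset.mem_range.1 hi)
      simp only [Q] at hQ ⊢
      rw [← mu_congr_e h', ← res_congr_e h', ← hb]
      exact hQ)
    (by
      intro t e
      let e' : ℕ → (ℕ × X ≃ X) := fun i => (e i).1
      have hT : ∀ t i, S.T fun y => e' t (i, y) := fun t i => (e t).2 i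
      let b := bd e' (z t) t
      let F : Set (X → X) := range fun u : Fin t → Fin (b + 1) =>
        mu e' t fun i => if h : i < t then u ⟨i, h⟩ else 0
      obtain ⟨a, h1, h2, h3⟩ := Sys.step (S := S) (I := List ℕ)
        (M := fun l => mu e' t fun i => l.getD i 0) (fun l => T_mu hT _ _)
        (fun x => ⟨(List.range t).map (it e' x), res e' t x, by
          rw [mu_congr (s' := it e' x) fun i hi => by simp [List.getD, hi]]
          exact mu_res t x⟩) (F := F) (finite_range _)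
        (by rintro _ ⟨u, rfl⟩; exact T_mu hT _ _) (res e' t (z t)) t
      refine ⟨⟨a, h1⟩, fun s hs => ?_⟩
      have hF : mu e' t s ∈ F :=
        ⟨fun i => ⟨s i, Nat.lt_succ_of_le (hs i i.2)⟩, mu_congr fun i hi => by simp [hi]⟩
      refine ⟨h2 _ hF, fun n hn => ?_⟩
      obtain ⟨l, i, h⟩ := h3 _ hF n hn
      exact ⟨_, i, h⟩)
  refine ⟨fun i => (e i).1, fun t i => (e t).2 i, fun t s hs => ⟨(he t s hs).1, fun n hn => ?_⟩⟩
  obtain ⟨s', i, h⟩ := (he t s hs).2 n hn
  refine ⟨Function.update s' t i, fun y w hw => ?_⟩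
  rw [h y w hw]
  simp only [mu, Function.update_self]
  rw [mu_congr (s := Function.update s' t i) (s' := s') fun j hj =>
    Function.update_of_ne (by omega) _ _]

theorem exists_P (S : Sys) : ∃ P : ℕ → Set X, (∀ j, IsClosed (P j)) ∧
    (∀ f, S.T f → range f ∈ range P) ∧
    (∀ i x, (¬ ∃ y, S.R i x y) → ∃ C ∈ range P, x ∈ C ∧ ∀ z ∈ C, ¬ ∃ y, S.R i z y) ∧
    (∀ C ∈ range P, ∀ i, ∃ C' ∈ range P, ∀ x y, S.R i x y → (x ∈ C' ↔ y ∈ C)) ∧
    (∀ C ∈ range P, ∀ C' ∈ range P, C ∩ C' ∈ range P) ∧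
    ∀ C ∈ range P, ∀ r, ∃ j, r ≤ j ∧ P j = C := by
  have hU : ∀ i, ∃ U : ℕ → Set X, (∀ n, IsOpen (U n)) ∧ {x | ∃ y, S.R i x y} = ⋂ n, U n :=
    fun i => by
      obtain ⟨U, h1, h2⟩ := (S.gd i).eq_iInter_nat
      exact ⟨U, h1, h2⟩
  choose U hU1 hU2 using hU
  let op : Set X → ℕ → Set X := fun C i => closure {x | ∃ y, S.R i x y ∧ y ∈ C}
  let P0 : Set (Set X) := (range '' {f | S.T f}) ∪ range fun p : ℕ × ℕ => (U p.1 p.2)ᶜ
  let Pk : ℕ → Set (Set X) := fun k => Nat.rec P0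
    (fun _ A => A ∪ (image2 (· ∩ ·) A A ∪ image2 op A univ)) k
  have Pc : ∀ k, (Pk k).Countable := by
    intro k
    induction k with
    | zero => exact (Sys.countable_T.image _).union (countable_range _)
    | succ k ih => exact ih.union ((ih.image2 ih _).union (ih.image2 countable_univ _))
  have Pcl : ∀ k, ∀ C ∈ Pk k, IsClosed C := by
    intro k
    induction k with
    | zero =>
      rintro C (⟨f, hf, rfl⟩ | ⟨p, rfl⟩)
      · exact Sys.T.closed hf
      · exact (hU1 _ _).isClosed_compl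
    | succ k ih =>
      rintro C (h | ⟨A, hA, B, hB, rfl⟩ | ⟨A, -, i, -, rfl⟩)
      · exact ih C h
      · exact (ih A hA).inter (ih B hB)
      · exact isClosed_closure
  have Pm : Monotone Pk := monotone_nat_of_le_succ fun k => subset_union_left
  have hc : (⋃ k, Pk k).Countable := countable_iUnion Pc
  have hne : (⋃ k, Pk k).Nonempty :=
    ⟨_, mem_iUnion.2 ⟨0, Or.inl ⟨id, Sys.T_id, rfl⟩⟩⟩
  obtain ⟨Q, hQ⟩ := hc.exists_eq_range hne
  have hr : (range fun j : ℕ => Q j.unpair.1) = ⋃ k, Pk k := by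
    rw [hQ]
    ext C
    constructor
    · rintro ⟨j, rfl⟩
      exact ⟨_, rfl⟩
    · rintro ⟨j, rfl⟩
      exact ⟨Nat.pair j 0, by simp⟩
  refine ⟨fun j => Q j.unpair.1, fun j => ?_, ?_, ?_, ?_, ?_, ?_⟩
  · have : Q j.unpair.1 ∈ ⋃ k, Pk k := hQ ▸ mem_range_self _
    obtain ⟨k, hk⟩ := mem_iUnion.1 this
    exact Pcl k _ hk
  · intro f hf
    rw [hr]
    exact mem_iUnion.2 ⟨0, Or.inl ⟨f, hf, rfl⟩⟩
  · intro i x hx
    have : x ∉ ⋂ n, U i n := by
      rw [← hU2]
      exact hx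
    simp only [mem_iInter, not_forall] at this
    obtain ⟨n, hn⟩ := this
    refine ⟨(U i n)ᶜ, ?_, hn, fun z hz hz' => ?_⟩
    · rw [hr]
      exact mem_iUnion.2 ⟨0, Or.inr ⟨(i, n), rfl⟩⟩
    · have : z ∈ ⋂ n, U i n := by
        rw [← hU2]
        exact hz'
      exact hz (mem_iInter.1 this n)
  · intro C hC i
    rw [hr] at hC ⊢
    obtain ⟨k, hk⟩ := mem_iUnion.1 hC
    refine ⟨op C i, mem_iUnion.2 ⟨k + 1, Or.inr (Or.inr ⟨C, hk, i, mem_univ _, rfl⟩)⟩,
      fun x y hxy => ⟨fun h => ?_, fun h => subset_closure ⟨y, hxy, h⟩⟩⟩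
    by_contra hy
    obtain ⟨n, hn⟩ := exists_agr ((Pcl k C hk).isOpen_compl.mem_nhds hy)
    obtain ⟨m, hm⟩ := S.cont i x y hxy n
    obtain ⟨x', h1, y', h2, h3⟩ := mem_closure_iff_nhds.1 h _ (agr_mem_nhds m x)
    exact hn y' (hm x' y' h2 h1) h3
  · intro C hC C' hC'
    rw [hr] at hC hC' ⊢
    obtain ⟨k, hk⟩ := mem_iUnion.1 hC
    obtain ⟨k', hk'⟩ := mem_iUnion.1 hC'
    exact mem_iUnion.2 ⟨max k k' + 1, Or.inr (Or.inl
      ⟨C, Pm (le_max_left _ _) hk, C', Pm (le_max_right _ _) hk', rfl⟩)⟩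
  · rintro C ⟨j, rfl⟩ r
    exact ⟨Nat.pair j.unpair.1 r, Nat.right_le_pair _ _, by simp⟩

/-- All the data of the construction. -/
structure Data where
  S : Sys
  P : ℕ → Set X
  e : ℕ → (ℕ × X ≃ X)
  z : ℕ → X
  b : ℕ → ℕ
  P_closed : ∀ j, IsClosed (P j)
  P_range : ∀ f, S.T f → range f ∈ range P
  P_dom : ∀ i x, (¬ ∃ y, S.R i x y) → ∃ C ∈ range P, x ∈ C ∧ ∀ z ∈ C, ¬ ∃ y, S.R i z y
  P_pre : ∀ C ∈ range P, ∀ i, ∃ C' ∈ range P, ∀ x y, S.R i x y → (x ∈ C' ↔ y ∈ C)
  P_inter : ∀ C ∈ range P, ∀ C' ∈ range P, C ∩ C' ∈ range P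
  P_cof : ∀ C ∈ range P, ∀ r, ∃ j, r ≤ j ∧ P j = C
  z_mem : ∀ t, (P t).Nonempty → z t ∈ P t
  eT : ∀ t i, S.T fun y => e t (i, y)
  b_ge : ∀ t, t ≤ b t
  b_it : ∀ t, ∀ i < t, it e (z t) i ≤ b t
  near : ∀ t, ∀ s : ℕ → ℕ, (∀ i < t, s i ≤ b t) →
    ∀ y, agr t (mu e t s (e t (0, y))) (mu e t s (res e t (z t)))
  dec : ∀ t, ∀ s : ℕ → ℕ, (∀ i < t, s i ≤ b t) →
    ∀ n ≤ t, ∃ s', ∀ y w, S.R n (mu e t s (e t (0, y))) w → w = mu e (t + 1) s' y

theorem exists_data (S : Sys) : ∃ D : Data, D.S = S := by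
  classical
  obtain ⟨P, h1, h2, h3, h4, h5, h6⟩ := exists_P S
  let z : ℕ → X := fun t => if h : (P t).Nonempty then h.some else fun _ => false
  obtain ⟨e, he1, he2⟩ := exists_levels S z
  exact ⟨⟨S, P, e, z, fun t => bd e (z t) t, h1, h2, h3, h4, h5, h6,
    fun t ht => by simp only [z, dif_pos ht]; exact ht.some_mem, he1, fun t => le_max_left _ _,
    fun t i hi => le_max_of_le_right (Finset.le_sup (f := it e (z t)) (Finset.mem_range.2 hi)),
    fun t s hs => (he2 t s hs).1, fun t s hs => (he2 t s hs).2⟩, rfl⟩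

end Pool.Agent.H874Z.Sy
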