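import Mathlib

set_option autoImplicit false

namespace Pool.Agent.H874Z.Sy

open Set Filter Topology

abbrev X : Type := ℕ → Bool

def agr (n : ℕ) (x y : X) : Prop := ∀ i < n, x i = y i

def cat (n : ℕ) (z x : X) : X := fun i => if i < n then z i else x (i - n)

theorem agr.refl (n : ℕ) (x : X) : agr n x x := fun _ _ => rfl

theorem agr.symm {n : ℕ} {x y : X} (h : agr n x y) : agr n y x := fun i hi => (h i hi).symm

theorem agr.trans {n : ℕ} {x y z : X} (h : agr n x y) (h' : agr n y z) : agr n x z :=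
  fun i hi => (h i hi).trans (h' i hi)

theorem agr.mono {n m : ℕ} {x y : X} (h : agr n x y) (hm : m ≤ n) : agr m x y :=
  fun i hi => h i (by omega)

theorem agr_cat (n : ℕ) (z x : X) : agr n (cat n z x) z := fun i hi => by simp [cat, hi]

theorem cat_congr {n : ℕ} {z z' : X} (h : agr n z z') : cat n z = cat n z' := by
  funext x i
  by_cases hi : i < n
  · simp [cat, hi, h i hi]
  · simp [cat, hi]

theorem range_cat (n : ℕ) (z : X) : range (cat n z) = {y | agr n y z} := by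
  ext y
  constructor
  · rintro ⟨x, rfl⟩
    exact agr_cat n z x
  · intro h
    refine ⟨fun i => y (i + n), ?_⟩
    funext i
    by_cases hi : i < n
    · simp [cat, hi, h i hi]
    · simp only [cat, if_neg hi]
      congr 1
      omega

theorem isClopen_agr (n : ℕ) (z : X) : IsClopen {y : X | agr n y z} := by
  have : {y : X | agr n y z} = ⋂ i ∈ Finset.range n, (fun y : X => y i) ⁻¹' {z i} := by
    ext y
    simp [agr]
  rw [this]
  exact isClopen_biInter_finset fun i _ => (isClopen_discrete _).preimage (continuous_apply i)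

theorem agr_mem_nhds (n : ℕ) (z : X) : {y : X | agr n y z} ∈ 𝓝 z :=
  (isClopen_agr n z).isOpen.mem_nhds (agr.refl n z)

theorem exists_agr {z : X} {U : Set X} (hU : U ∈ 𝓝 z) : ∃ n, ∀ y, agr n y z → y ∈ U := by
  rw [nhds_pi] at hU
  obtain ⟨I, t, ht, hI⟩ := Filter.mem_pi'.1 hU
  refine ⟨I.sup id + 1, fun y hy => hI fun i hi => ?_⟩
  rw [hy i (Nat.lt_succ_of_le (Finset.le_sup (f := id) hi))]
  exact mem_of_mem_nhds (ht i)

/-- A countable system of partial homeomorphisms of Cantor space with the closure properties of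
the effective ones. -/
structure Sys where
  R : ℕ → X → X → Prop
  func : ∀ i x y y', R i x y → R i x y' → y = y'
  symm : ∀ i, ∃ j, ∀ x y, R j y x ↔ R i x y
  comp : ∀ i j, ∃ k, ∀ x y z, R i x y → R j y z → R k x z
  cont : ∀ i x y, R i x y → ∀ n, ∃ m, ∀ x' y', R i x' y' → agr m x' x → agr n y' y
  gd : ∀ i, IsGδ {x | ∃ y, R i x y}
  cyl : ∀ n z, ∃ i, ∀ x, R i x (cat n z x)
  thin : ∃ i, ∃ f : X → X, (∀ x, R i x (f x)) ∧ interior (range f) = ∅
  dense : ∀ i, Dense {x | ∃ y, R i x y} → ∃ j, ∃ θ : X → X, (∀ x, R j x (θ x)) ∧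
    ∀ x, ∃ y, R i (θ x) y

namespace Sys

variable (S : Sys)

/-- total members of the system -/
def T (f : X → X) : Prop := ∃ i, ∀ x, S.R i x (f x)

def E (x y : X) : Prop := ∃ i, S.R i x y

variable {S}

theorem T_cat (n : ℕ) (z : X) : S.T (cat n z) := S.cyl n z

theorem T_id : S.T id := by
  have : cat 0 (fun _ => false) = id := by
    funext x i
    simp [cat]
  exact this ▸ T_cat 0 _

theorem T.comp {f g : X → X} (hf : S.T f) (hg : S.T g) : S.T (f ∘ g) := by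
  obtain ⟨i, hi⟩ := hf
  obtain ⟨j, hj⟩ := hg
  obtain ⟨k, hk⟩ := S.comp j i
  exact ⟨k, fun x => hk x (g x) _ (hj x) (hi _)⟩

theorem E_equiv : Equivalence S.E := by
  refine ⟨fun x => ?_, ?_, ?_⟩
  · obtain ⟨i, hi⟩ := T_id (S := S)
    exact ⟨i, hi x⟩
  · rintro x y ⟨i, hi⟩
    obtain ⟨j, hj⟩ := S.symm i
    exact ⟨j, (hj x y).2 hi⟩
  · rintro x y z ⟨i, hi⟩ ⟨j, hj⟩
    obtain ⟨k, hk⟩ := S.comp i j
    exact ⟨k, hk x y z hi hj⟩

theorem contOn {i : ℕ} {f : X → X} {A : Set X} (h : ∀ x ∈ A, S.R i x (f x)) :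
    ContinuousOn f A := by
  intro x hx U hU
  obtain ⟨n, hn⟩ := exists_agr hU
  obtain ⟨m, hm⟩ := S.cont i x _ (h x hx) n
  rw [mem_map]
  filter_upwards [self_mem_nhdsWithin, mem_nhdsWithin_of_mem_nhds (agr_mem_nhds m x)] with y hy hy'
  exact hn _ (hm y _ (h y hy) hy')

theorem T.cont {f : X → X} (hf : S.T f) : Continuous f := by
  obtain ⟨i, hi⟩ := hf
  exact continuousOn_univ.1 (contOn fun x _ => hi x)

theorem T.inj {f : X → X} (hf : S.T f) : Function.Injective f := by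
  obtain ⟨i, hi⟩ := hf
  obtain ⟨j, hj⟩ := S.symm i
  intro x y h
  exact S.func j (f x) x y ((hj _ _).2 (hi x)) ((hj _ _).2 (h ▸ hi y))

theorem T.closed {f : X → X} (hf : S.T f) : IsClosed (range f) :=
  (isCompact_range hf.cont).isClosed

theorem T.div {f g : X → X} (hf : S.T f) (hg : S.T g) (h : ∀ y, g y ∈ range f) :
    ∃ ν, S.T ν ∧ ∀ y, f (ν y) = g y := by
  choose ν hν using h
  obtain ⟨i, hi⟩ := hf
  obtain ⟨j, hj⟩ := S.symm i
  obtain ⟨k, hk⟩ := hg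
  obtain ⟨l, hl⟩ := S.comp k j
  exact ⟨ν, ⟨l, fun y => hl y (g y) _ (hk y) ((hj _ _).2 (hν y ▸ hi (ν y)))⟩, hν⟩

theorem countable_T : {f | S.T f}.Countable := by
  classical
  let c : ℕ → X → X := fun i x => if h : ∃ y, S.R i x y then h.choose else x
  refine (countable_range c).mono ?_
  rintro f ⟨i, hi⟩
  refine ⟨i, funext fun x => ?_⟩
  have h : ∃ y, S.R i x y := ⟨_, hi x⟩
  simp only [c, dif_pos h]
  exact S.func i x _ _ h.choose_spec (hi x)

theorem thin_all {α : Type} {L : Set α} (hL : L.Finite) (Q : α → (X → X) → Prop)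
    (mono : ∀ a θ θ', S.T θ' → Q a θ → Q a (θ ∘ θ'))
    (ex : ∀ a ∈ L, ∀ θ, S.T θ → ∃ θ', S.T θ' ∧ Q a (θ ∘ θ')) {θ0 : X → X} (h0 : S.T θ0) :
    ∃ θ', S.T θ' ∧ ∀ a ∈ L, Q a (θ0 ∘ θ') := by
  induction L, hL using Set.Finite.induction_on with
  | empty => exact ⟨id, T_id, by simp⟩
  | @insert a L _ _ ih =>
    obtain ⟨θ1, h1, h2⟩ := ih fun b hb => ex b (mem_insert_of_mem _ hb)
    obtain ⟨θ2, h3, h4⟩ := ex a (mem_insert _ _) _ (h0.comp h1)
    refine ⟨θ1 ∘ θ2, h1.comp h3, ?_⟩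
    rintro b (rfl | hb)
    · exact h4
    · exact mono b (θ0 ∘ θ1) θ2 h3 (h2 b hb)

theorem into_piece {I : Type} [Countable I] {M : I → X → X} (hM : ∀ l, S.T (M l))
    (cov : ∀ x, ∃ l y, M l y = x) {g : X → X} (hg : S.T g) :
    ∃ n z l ν, S.T ν ∧ ∀ y, M l (ν y) = g (cat n z y) := by
  obtain ⟨l, z, hz⟩ := nonempty_interior_of_iUnion_of_closed (X := X)
    (f := fun l => g ⁻¹' range (M l)) (fun l => (hM l).closed.preimage hg.cont)
    (eq_univ_of_forall fun x => by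
      obtain ⟨l, y, h⟩ := cov (g x)
      exact mem_iUnion.2 ⟨l, y, h⟩)
  obtain ⟨n, hn⟩ := exists_agr (mem_interior_iff_mem_nhds.1 hz)
  obtain ⟨ν, h1, h2⟩ := (hM l).div (hg.comp (T_cat n z)) fun y => hn _ (agr_cat n z y)
  exact ⟨n, z, l, ν, h1, h2⟩

theorem decide_one {I : Type} [Countable I] {M : I → X → X} (hM : ∀ l, S.T (M l))
    (cov : ∀ x, ∃ l y, M l y = x) {κ : X → X} (hκ : S.T κ) (n : ℕ) :
    ∃ θ, S.T θ ∧ ∃ l ν, S.T ν ∧ ∀ y w, S.R n (κ (θ y)) w → w = M l (ν y) := by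
  obtain ⟨i, hi⟩ := hκ
  obtain ⟨k, hk⟩ := S.comp i n
  by_cases hd : Dense {x | ∃ y, S.R k x y}
  · obtain ⟨j, θ, h1, h2⟩ := S.dense k hd
    choose g hg using h2
    obtain ⟨k', hk'⟩ := S.comp j k
    have hgT : S.T g := ⟨k', fun x => hk' x _ _ (h1 x) (hg x)⟩
    obtain ⟨m, z, l, ν, h3, h4⟩ := into_piece hM cov hgT
    refine ⟨θ ∘ cat m z, T.comp ⟨j, h1⟩ (T_cat m z), l, ν, h3, fun y w hw => ?_⟩
    rw [h4]
    exact S.func k _ _ _ (hk _ _ _ (hi _) hw) (hg _)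
  · rw [dense_iff_inter_open] at hd
    push Not at hd
    obtain ⟨U, hU, ⟨z, hz⟩, hUe⟩ := hd
    obtain ⟨m, hm⟩ := exists_agr (hU.mem_nhds hz)
    obtain ⟨l, -⟩ := cov z
    refine ⟨cat m z, T_cat m z, l, id, T_id, fun y w hw => ?_⟩
    have : cat m z y ∈ U ∩ {x | ∃ y, S.R k x y} :=
      ⟨hm _ (agr_cat m z y), w, hk _ _ _ (hi _) hw⟩
    rw [hUe] at this
    exact this.elim

theorem partition {G : Set (X → X)} (hG : G.Finite) (hT : ∀ p ∈ G, S.T p)
    (hd : ∀ p ∈ G, ∀ q ∈ G, p = q ∨ Disjoint (range p) (range q))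
    (hi : ∀ p ∈ G, interior (range p) = ∅) {ν0 : X → X} (h0 : ν0 ∈ G) :
    ∃ e : ℕ × X ≃ X, (∀ i, S.T fun y => e (i, y)) ∧ (∀ y, e (0, y) = ν0 y) ∧
      ∀ p ∈ G, ∃ i, ∀ y, e (i, y) = p y := by
  classical
  let N : Set X := ⋃ p ∈ G, range p
  have hN : IsClosed N := hG.isClosed_biUnion fun p hp => (hT p hp).closed
  have hNi : interior N = ∅ := by
    have : ∀ H : Set (X → X), H.Finite → H ⊆ G → interior (⋃ p ∈ H, range p) = ∅ := by
      intro H hH
      induction H, hH using Set.Finite.induction_on with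
      | empty => simp
      | @insert a L _ _ ih =>
        intro hs
        rw [biUnion_insert, interior_union_isClosed_of_interior_empty
          (hT a (hs (mem_insert _ _))).closed (ih ((subset_insert _ _).trans hs))]
        exact hi a (hs (mem_insert _ _))
    exact this G hG Subset.rfl
  have hex : ∀ x, x ∉ N → ∃ n, ∀ y, agr n y x → y ∉ N := fun x hx =>
    exists_agr (hN.isOpen_compl.mem_nhds hx)
  let lev : X → ℕ := fun x => if h : ∃ n, ∀ y, agr n y x → y ∉ N then Nat.find h else 0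
  have lev_spec : ∀ x, x ∉ N → ∀ y, agr (lev x) y x → y ∉ N := fun x hx => by
    simp only [lev, dif_pos (hex x hx)]
    exact Nat.find_spec (hex x hx)
  have lev_le : ∀ x, x ∉ N → ∀ n, (∀ y, agr n y x → y ∉ N) → lev x ≤ n := fun x hx n hn => by
    simp only [lev, dif_pos (hex x hx)]
    exact Nat.find_min' (hex x hx) hn
  have lev_congr : ∀ x, x ∉ N → ∀ z, agr (lev x) z x → lev z = lev x := fun x hx z hz => by
    have hzN := lev_spec x hx z hz
    have h1 : lev z ≤ lev x := lev_le z hzN _ fun y hy => lev_spec x hx y (hy.trans hz)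
    exact le_antisymm h1 (lev_le x hx _ fun y hy =>
      lev_spec z hzN y (hy.trans (hz.mono h1).symm))
  let Fm : Set (X → X) := G ∪ {p | ∃ x, x ∉ N ∧ p = cat (lev x) x}
  have FT : ∀ p ∈ Fm, S.T p := by
    rintro p (hp | ⟨x, -, rfl⟩)
    · exact hT p hp
    · exact T_cat _ _
  have Fc : Fm.Countable := countable_T.mono FT
  have Fcov : ∀ x, ∃ p ∈ Fm, x ∈ range p := fun x => by
    by_cases hx : x ∈ N
    · simp only [N, mem_iUnion] at hx
      obtain ⟨p, hp, hx⟩ := hx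
      exact ⟨p, Or.inl hp, hx⟩
    · exact ⟨_, Or.inr ⟨x, hx, rfl⟩, by rw [range_cat]; exact agr.refl _ _⟩
  have GN : ∀ p ∈ G, ∀ x ∈ range p, x ∈ N := fun p hp x hx => mem_biUnion hp hx
  have Funi : ∀ p ∈ Fm, ∀ q ∈ Fm, ∀ x, x ∈ range p → x ∈ range q → p = q := by
    rintro p (hp | ⟨z, hz, rfl⟩) q (hq | ⟨w, hw, rfl⟩) x hx hx'
    · exact (hd p hp q hq).resolve_right fun h => Set.disjoint_left.1 h hx hx'
    · rw [range_cat] at hx'
      exact absurd (GN p hp x hx) (lev_spec w hw x hx')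
    · rw [range_cat] at hx
      exact absurd (GN q hq x hx') (lev_spec z hz x hx)
    · rw [range_cat] at hx hx'
      have e1 := lev_congr z hz x hx
      have e2 := lev_congr w hw x hx'
      rw [← e1] at hx ⊢
      rw [← e2] at hx' ⊢
      exact cat_congr (hx.symm.trans hx')
  have Finf : Fm.Infinite := by
    intro hfin
    have h1 : IsClosed (⋃ p ∈ {p | ∃ x, x ∉ N ∧ p = cat (lev x) x}, range p) :=
      (hfin.subset subset_union_right).isClosed_biUnion fun p hp => (FT p (Or.inr hp)).closed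
    have h2 : (⋃ p ∈ {p | ∃ x, x ∉ N ∧ p = cat (lev x) x}, range p) = Nᶜ := by
      ext y
      simp only [mem_iUnion, mem_compl_iff]
      constructor
      · rintro ⟨p, ⟨x, hx, rfl⟩, hy⟩
        rw [range_cat] at hy
        exact lev_spec x hx y hy
      · intro hy
        exact ⟨_, ⟨y, hy, rfl⟩, by rw [range_cat]; exact agr.refl _ _⟩
    rw [h2, isClosed_compl_iff] at h1
    rw [h1.interior_eq] at hNi
    have : ν0 (fun _ => false) ∈ N := GN ν0 h0 _ ⟨_, rfl⟩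
    rw [hNi] at this
    exact this
  have := Fc.to_subtype
  have := Finf.to_subtype
  obtain ⟨dn⟩ := nonempty_denumerable Fm
  let e0 : ℕ ≃ Fm := (Denumerable.eqv Fm).symm
  let e1 : ℕ ≃ Fm := (Equiv.swap 0 (e0.symm ⟨ν0, Or.inl h0⟩)).trans e0
  have hb : Function.Bijective fun p : ℕ × X => (e1 p.1).1 p.2 := by
    constructor
    · rintro ⟨i, y⟩ ⟨j, z⟩ h
      simp only at h
      have h1 : e1 i = e1 j := Subtype.ext (Funi _ (e1 i).2 _ (e1 j).2 _ ⟨y, rfl⟩ ⟨z, h.symm⟩)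
      have h2 := e1.injective h1
      subst h2
      rw [(FT _ (e1 i).2).inj h]
    · intro x
      obtain ⟨p, hp, y, hy⟩ := Fcov x
      exact ⟨(e1.symm ⟨p, hp⟩, y), by simpa using hy⟩
  refine ⟨Equiv.ofBijective _ hb, fun i => FT _ (e1 i).2, fun y => ?_, fun p hp => ?_⟩
  · simp [e1]
  · exact ⟨e1.symm ⟨p, Or.inl hp⟩, fun y => by simp⟩

theorem step {I : Type} [Countable I] {M : I → X → X} (hM : ∀ l, S.T (M l))
    (cov : ∀ x, ∃ l y, M l y = x) {F : Set (X → X)} (hF : F.Finite) (hFT : ∀ μ ∈ F, S.T μ)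
    (a : X) (t : ℕ) :
    ∃ e : ℕ × X ≃ X, (∀ i, S.T fun y => e (i, y)) ∧
      (∀ μ ∈ F, ∀ y, agr t (μ (e (0, y))) (μ a)) ∧
      ∀ μ ∈ F, ∀ n ≤ t, ∃ l i, ∀ y w, S.R n (μ (e (0, y))) w → w = M l (e (i, y)) := by
  classical
  have h1 : ∀ᶠ y in 𝓝 a, ∀ μ ∈ F, agr t (μ y) (μ a) :=
    (eventually_all_finite hF).2 fun μ hμ =>
      (hFT μ hμ).cont.continuousAt (agr_mem_nhds t (μ a))
  obtain ⟨m, hm⟩ := exists_agr h1
  have hL : (F ×ˢ Iic t).Finite := hF.prod (finite_Iic t)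
  obtain ⟨θ1, hθ1, h2⟩ := thin_all (S := S) hL
    (fun p θ => ∃ l ν, S.T ν ∧ ∀ y w, S.R p.2 (p.1 (θ y)) w → w = M l (ν y))
    (by
      rintro p θ θ' hθ' ⟨l, ν, h1, h2⟩
      exact ⟨l, ν ∘ θ', h1.comp hθ', fun y w hw => h2 _ w hw⟩)
    (fun p hp θ hθ => decide_one hM cov ((hFT _ hp.1).comp hθ) p.2) (T_cat m a)
  have : Nonempty I := ⟨(cov a).choose⟩
  choose! l ν hν1 hν2 using h2
  let G0 : Set (X → X) := insert (cat m a ∘ θ1) (ν '' (F ×ˢ Iic t))
  have hG0 : G0.Finite := (hL.image ν).insert _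
  have hG0T : ∀ p ∈ G0, S.T p := by
    rintro p (rfl | ⟨q, hq, rfl⟩)
    · exact (T_cat m a).comp hθ1
    · exact hν1 q hq
  obtain ⟨θ2, hθ2, h3⟩ := thin_all (S := S) (hG0.prod hG0)
    (fun p θ => p.1 ∘ θ = p.2 ∘ θ ∨ Disjoint (range (p.1 ∘ θ)) (range (p.2 ∘ θ)))
    (by
      rintro p θ θ' - (h | h)
      · exact Or.inl (by rw [← Function.comp_assoc, h, Function.comp_assoc])
      · exact Or.inr (h.mono (by rintro _ ⟨y, rfl⟩; exact ⟨θ' y, rfl⟩)
          (by rintro _ ⟨y, rfl⟩; exact ⟨θ' y, rfl⟩)))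
    (by
      rintro ⟨p, q⟩ hp θ hθ
      by_cases h : p ∘ θ = q ∘ θ
      · exact ⟨id, T_id, Or.inl h⟩
      · obtain ⟨y, hy⟩ := Function.ne_iff.1 h
        obtain ⟨i, hi⟩ := Function.ne_iff.1 hy
        have c1 := ((hG0T p hp.1).comp hθ).cont.continuousAt (agr_mem_nhds (i + 1) ((p ∘ θ) y))
        have c2 := ((hG0T q hp.2).comp hθ).cont.continuousAt (agr_mem_nhds (i + 1) ((q ∘ θ) y))
        obtain ⟨k, hk⟩ := exists_agr (inter_mem c1 c2)
        refine ⟨cat k y, T_cat k y, Or.inr (Set.disjoint_left.2 ?_)⟩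
        rintro _ ⟨u, rfl⟩ ⟨v, hv⟩
        have e1 := (hk _ (agr_cat k y u)).1 i (by omega)
        have e2 := (hk _ (agr_cat k y v)).2 i (by omega)
        have e3 := congrFun hv i
        simp only [Function.comp] at e1 e2 e3 hi
        exact hi (by rw [← e1, ← e2, e3])) T_id
  obtain ⟨i0, δ, hδ, hδi⟩ := S.thin
  have hδT : S.T δ := ⟨i0, hδ⟩
  let θ := θ2 ∘ δ
  have hθ : S.T θ := hθ2.comp hδT
  obtain ⟨e, he1, he2, he3⟩ := partition (S := S) (G := (fun p => p ∘ θ) '' G0) (hG0.image _)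
    (by
      rintro _ ⟨p, hp, rfl⟩
      exact (hG0T p hp).comp hθ)
    (by
      rintro _ ⟨p, hp, rfl⟩ _ ⟨q, hq, rfl⟩
      rcases h3 (p, q) ⟨hp, hq⟩ with h | h
      · exact Or.inl (congrArg (fun f => f ∘ δ) h)
      · exact Or.inr (h.mono (by rintro _ ⟨y, rfl⟩; exact ⟨δ y, rfl⟩)
          (by rintro _ ⟨y, rfl⟩; exact ⟨δ y, rfl⟩)))
    (by
      rintro _ ⟨p, hp, rfl⟩
      have hp2 := (hG0T p hp).comp hθ2
      rw [eq_empty_iff_forall_notMem]
      intro x hx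
      obtain ⟨y, rfl⟩ := interior_subset hx
      have h5 : δ y ∈ interior (range δ) := by
        refine interior_maximal (t := (p ∘ θ2) ⁻¹' interior (range (p ∘ θ))) ?_
          (isOpen_interior.preimage hp2.cont) hx
        intro u hu
        obtain ⟨v, hv⟩ := interior_subset hu
        exact ⟨v, hp2.inj hv⟩
      rw [hδi] at h5
      exact h5)
    (ν0 := (cat m a ∘ θ1) ∘ θ) ⟨_, mem_insert _ _, rfl⟩
  refine ⟨e, he1, fun μ hμ y => ?_, fun μ hμ n hn => ?_⟩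
  · rw [he2]
    exact hm _ (agr_cat m a _) μ hμ
  · obtain ⟨i, hi⟩ := he3 (ν (μ, n) ∘ θ) ⟨_, mem_insert_of_mem _ ⟨(μ, n), ⟨hμ, hn⟩, rfl⟩, rfl⟩
    refine ⟨l (μ, n), i, fun y w hw => ?_⟩
    rw [he2] at hw
    rw [hi]
    exact hν2 (μ, n) ⟨hμ, hn⟩ (θ y) w hw

end Sys

end Pool.Agent.H874Z.Sy
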