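import Pool.Agent.H874Z.Lev
import Pool.Agent.H874Z.KR
import Pool.Agent.Helper583.TCJ1

set_option autoImplicit false
set_option backward.isDefEq.respectTransparency false

namespace Pool.Agent.H874Z.Sy

open Set Filter Topology Pool.Agent.H874Z.KR

theorem baire_of_closed {Y : Type} [TopologicalSpace Y] [Nonempty Y] {Θ : Y → ℕ → ℕ}
    (hΘ : IsClosedEmbedding Θ)
    (hN : ∀ U : Set Y, IsOpen U → U.Nonempty → ∃ (u : ℕ → Y) (k : ℕ), (∀ n, u n ∈ U) ∧
      ∀ m n, m ≠ n → Θ (u m) k ≠ Θ (u n) k) : Nonempty (Y ≃ₜ (ℕ → ℕ)) := by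
  let _ : MetricSpace (ℕ → ℕ) := PiNat.metricSpaceNatNat
  let _ : MetricSpace Y := hΘ.isEmbedding.comapMetricSpace Θ
  have hiso : Isometry Θ := fun _ _ => rfl
  have : CompleteSpace Y :=
    (completeSpace_iff_isComplete_range hiso.isUniformInducing).2 hΘ.isClosed_range.isComplete
  have : SecondCountableTopology Y := hΘ.isEmbedding.secondCountableTopology
  refine Pool.Agent.Helper583.TC.J1.baire_of_zeroDim (fun x ε hε => ?_) fun U hU hne => ?_
  · obtain ⟨n, hn⟩ := exists_bl hΘ.isEmbedding.isInducing (Metric.ball_mem_nhds x hε)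
    exact ⟨_, isClopen_bl hΘ.isEmbedding.isInducing x n, self_bl x n, hn⟩
  · obtain ⟨u, k, h1, h2⟩ := hN U hU hne
    refine ⟨u, (1 / 2) ^ k, by positivity, h1, fun m n hmn => ?_⟩
    by_contra hlt
    rw [not_le, ← hiso.dist_eq] at hlt
    exact h2 m n hmn (PiNat.apply_eq_of_dist_lt hlt le_rfl)

namespace Data

variable (D : Data)

def atom (k : ℕ) (s : ℕ → ℕ) : Set X := {y | ∀ i < k, it D.e y i = s i}

def Prim (t : ℕ) (x : X) : Prop := it D.e x t = 0 ∧ ∀ i < t, it D.e x i ≤ D.b t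

def att (t : ℕ) (x : X) : X := mu D.e t (it D.e x) (res D.e t (D.z t))

def Ps (j : ℕ) : Set X := D.P j ∪ {x | ∃ t, j ≤ t ∧ D.Prim t x ∧ D.att t x ∈ D.P j}

open Classical in
noncomputable def dd (x : X) (j : ℕ) : ℕ :=
  if h : ∃ n, ∀ y, agr n y x → y ∉ D.Ps j then Nat.find h + 1 else 0

noncomputable def Θ (x : X) (n : ℕ) : ℕ :=
  Nat.pair (x n).toNat (Nat.pair (it D.e x n) (D.dd x n))

variable {D}

theorem atom_eq (k : ℕ) (s : ℕ → ℕ) : D.atom k s = range (mu D.e k s) := by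
  ext y
  constructor
  · intro h
    exact ⟨res D.e k y, by rw [← mu_congr h]; exact mu_res k y⟩
  · rintro ⟨u, rfl⟩ i hi
    exact it_mu hi s u

theorem atom_mem (k : ℕ) (s : ℕ → ℕ) : D.atom k s ∈ range D.P := by
  rw [atom_eq]
  exact D.P_range _ (T_mu D.eT k s)

theorem closed_of_mem {C : Set X} (h : C ∈ range D.P) : IsClosed C := by
  obtain ⟨j, rfl⟩ := h
  exact D.P_closed j

theorem atom_self (k : ℕ) (x : X) : x ∈ D.atom k (it D.e x) := fun _ _ => rfl

theorem atom_ne (k : ℕ) (s : ℕ → ℕ) : (D.atom k s).Nonempty := by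
  rw [atom_eq]
  exact range_nonempty _

theorem prim_congr {t : ℕ} {x y : X} (h : y ∈ D.atom (t + 1) (it D.e x)) (hx : D.Prim t x) :
    D.Prim t y ∧ D.att t y = D.att t x :=
  ⟨⟨(h t (by omega)).trans hx.1, fun i hi => (h i (by omega)).trans_le (hx.2 i hi)⟩,
    by simp only [att]; rw [mu_congr fun i hi => h i (by omega)]⟩

theorem prim_eq {t : ℕ} {x : X} (hx : D.Prim t x) :
    mu D.e t (it D.e x) (D.e t (0, res D.e (t + 1) x)) = x := by
  have := mu_res (e := D.e) (t + 1) x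
  simp only [mu] at this
  rwa [hx.1] at this

theorem agr_att {t : ℕ} {x : X} (hx : D.Prim t x) : agr t x (D.att t x) := by
  have := D.near t (it D.e x) hx.2 (res D.e (t + 1) x)
  rwa [prim_eq hx] at this

theorem closed_prim (t : ℕ) (C : Set X) : IsClosed {x | D.Prim t x ∧ D.att t x ∈ C} := by
  classical
  let ex : (Fin (t + 1) → Fin (D.b t + 1)) → ℕ → ℕ := fun u i =>
    if h : i < t + 1 then u ⟨i, h⟩ else 0
  have : {x | D.Prim t x ∧ D.att t x ∈ C} = ⋃ u ∈ {u | ∃ x, x ∈ D.atom (t + 1) (ex u) ∧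
      D.Prim t x ∧ D.att t x ∈ C}, D.atom (t + 1) (ex u) := by
    ext y
    simp only [mem_iUnion, mem_ofPred_eq]
    constructor
    · intro hy
      have hb : ∀ i < t + 1, it D.e y i < D.b t + 1 := fun i hi => by
        rcases Nat.lt_succ_iff_lt_or_eq.1 hi with h | rfl
        · exact Nat.lt_succ_of_le (hy.1.2 i h)
        · rw [hy.1.1]; omega
      have h1 : y ∈ D.atom (t + 1) (ex fun i => ⟨it D.e y i, hb i i.2⟩) := fun i hi => by
        simp only [ex, dif_pos hi]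
      exact ⟨fun i => ⟨it D.e y i, hb i i.2⟩, ⟨y, h1, hy⟩, h1⟩
    · rintro ⟨u, ⟨x, h1, h2, h3⟩, hy⟩
      obtain ⟨h4, h5⟩ := prim_congr (y := y) (fun i hi => (hy i hi).trans (h1 i hi).symm) h2
      exact ⟨h4, h5 ▸ h3⟩
  rw [this]
  exact (toFinite _).isClosed_biUnion fun u _ => closed_of_mem (atom_mem _ _)

theorem closed_Ps (j : ℕ) : IsClosed (D.Ps j) := by
  rw [← isOpen_compl_iff, isOpen_iff_mem_nhds]
  intro x hx
  have hx1 : x ∉ D.P j := fun h => hx (Or.inl h)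
  obtain ⟨n, hn⟩ := exists_agr ((D.P_closed j).isOpen_compl.mem_nhds hx1)
  have h2 : ∀ᶠ y in 𝓝 x, ∀ t ∈ Finset.range n, j ≤ t → ¬ (D.Prim t y ∧ D.att t y ∈ D.P j) := by
    rw [eventually_all_finset]
    intro t _
    by_cases hj : j ≤ t
    · filter_upwards [(closed_prim t (D.P j)).isOpen_compl.mem_nhds
        fun h => hx (Or.inr ⟨t, hj, h⟩)] with y hy _ using hy
    · exact Eventually.of_forall fun y h => absurd h hj
  filter_upwards [h2, agr_mem_nhds n x] with y h3 h4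
  rintro (h | ⟨t, h5, h6, h7⟩)
  · exact hn y h4 h
  · by_cases ht : t < n
    · exact h3 t (Finset.mem_range.2 ht) h5 ⟨h6, h7⟩
    · exact hn _ (((agr_att h6).mono (by omega)).symm.trans h4) h7

theorem dd_eq_zero {x : X} {j : ℕ} : D.dd x j = 0 ↔ x ∈ D.Ps j := by
  unfold dd
  split_ifs with h
  · simp only [false_iff]
    obtain ⟨n, hn⟩ := h
    exact hn x (agr.refl _ _)
  · simp only [true_iff]
    by_contra hx
    exact h (exists_agr ((closed_Ps j).isOpen_compl.mem_nhds hx))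

theorem dd_congr {x y : X} {j : ℕ} (hx : x ∉ D.Ps j) (h : agr (D.dd x j) y x) :
    D.dd y j = D.dd x j := by
  classical
  have h1 : ∃ n, ∀ y, agr n y x → y ∉ D.Ps j :=
    exists_agr ((closed_Ps j).isOpen_compl.mem_nhds hx)
  simp only [dd, dif_pos h1] at h
  have h' := h.mono (Nat.le_succ _)
  have h2 : ∃ n, ∀ w, agr n w y → w ∉ D.Ps j :=
    ⟨_, fun w hw => Nat.find_spec h1 w (hw.trans h')⟩
  simp only [dd, dif_pos h1, dif_pos h2]
  congr 1
  have h3 : Nat.find h2 ≤ Nat.find h1 :=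
    Nat.find_min' h2 fun w hw => Nat.find_spec h1 w (hw.trans h')
  exact le_antisymm h3 (Nat.find_min' h1 fun w hw =>
    Nat.find_spec h2 w (hw.trans (h'.mono h3).symm))

theorem Θ_eq {x y : X} {n : ℕ} :
    D.Θ x n = D.Θ y n ↔ x n = y n ∧ it D.e x n = it D.e y n ∧ D.dd x n = D.dd y n := by
  simp only [Θ, Nat.pair_eq_pair]
  refine and_congr_left' ?_
  cases x n <;> cases y n <;> simp

theorem Θ_inj : Function.Injective D.Θ := fun _ _ h =>
  funext fun n => (Θ_eq.1 (congrFun h n)).1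

theorem closed_bl (z : X) (n : ℕ) : IsClosed {y | ∀ i < n, D.Θ y i = D.Θ z i} := by
  have : {y | ∀ i < n, D.Θ y i = D.Θ z i} = ({y | agr n y z} ∩ D.atom n (it D.e z)) ∩
      ⋂ i ∈ Finset.range n, {y | D.dd y i = D.dd z i} := by
    ext y
    simp only [Θ_eq, mem_ofPred_eq, mem_inter_iff, mem_iInter, Finset.mem_range, agr, atom]
    exact ⟨fun h => ⟨⟨fun i hi => (h i hi).1, fun i hi => (h i hi).2.1⟩, fun i hi => (h i hi).2.2⟩,
      fun h i hi => ⟨h.1.1 i hi, h.1.2 i hi, h.2 i hi⟩⟩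
  rw [this]
  refine ((isClopen_agr n z).isClosed.inter (closed_of_mem (atom_mem _ _))).inter
    (isClosed_biInter fun i _ => ?_)
  by_cases hz : z ∈ D.Ps i
  · simp only [dd_eq_zero.2 hz, dd_eq_zero]
    exact closed_Ps i
  · refine isClosed_of_closure_subset fun x hx => ?_
    obtain ⟨y, h1, h2⟩ := mem_closure_iff_nhds.1 hx _ (agr_mem_nhds (D.dd z i) x)
    have h3 : D.dd y i = D.dd z i := h2
    have hy : y ∉ D.Ps i := fun h => hz (dd_eq_zero.1 (h3 ▸ dd_eq_zero.2 h))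
    exact (dd_congr hy (h3 ▸ agr.symm h1)).trans h3

theorem closed_range : IsClosed (range D.Θ) := by
  refine isClosed_of_closure_subset fun u hu => ?_
  have h1 : ∀ n, ∃ z, ∀ i < n, D.Θ z i = u i := fun n => by
    obtain ⟨_, h1, z, rfl⟩ := mem_closure_iff_nhds.1 hu _
      ((isClopen_bl (Θ := id) IsInducing.id u n).isOpen.mem_nhds (self_bl u n))
    exact ⟨z, h1⟩
  choose z hz using h1
  have h2 : ∀ n, {y | ∀ i < n, D.Θ y i = u i} = {y | ∀ i < n, D.Θ y i = D.Θ (z n) i} := fun n => by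
    ext y
    exact forall₂_congr fun i hi => by rw [hz n i hi]
  obtain ⟨y, hy⟩ := IsCompact.nonempty_iInter_of_sequence_nonempty_isCompact_isClosed
    (fun n => {y | ∀ i < n, D.Θ y i = u i}) (fun n y hy i hi => hy i (by omega))
    (fun n => ⟨z n, hz n⟩) (by rw [h2]; exact (closed_bl _ _).isCompact)
    (fun n => by rw [h2]; exact closed_bl _ _)
  exact ⟨y, funext fun i => mem_iInter.1 hy (i + 1) i (by omega)⟩

/-- Cantor space with the finer topology. -/
def Y (_D : Data) : Type := X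

noncomputable instance : TopologicalSpace D.Y := TopologicalSpace.induced D.Θ inferInstance

instance : Nonempty D.Y := ⟨fun _ => false⟩

theorem ind : IsInducing (X := D.Y) D.Θ := ⟨rfl⟩

theorem cemb : IsClosedEmbedding (X := D.Y) D.Θ := ⟨⟨ind, Θ_inj⟩, closed_range⟩

theorem ev_Θ (z : D.Y) (n : ℕ) : ∀ᶠ y : D.Y in 𝓝 z, D.Θ y n = D.Θ z n := by
  filter_upwards [(isClopen_bl ind z (n + 1)).isOpen.mem_nhds (self_bl z _)] with y hy
  exact hy n (by omega)

theorem ev_agr (z : D.Y) (n : ℕ) : ∀ᶠ y : D.Y in 𝓝 z, agr n y z := by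
  filter_upwards [(isClopen_bl ind z n).isOpen.mem_nhds (self_bl z _)] with y hy
  exact fun i hi => (Θ_eq.1 (hy i hi)).1

theorem ev_it (z : D.Y) (n : ℕ) : ∀ᶠ y : D.Y in 𝓝 z, it D.e y n = it D.e z n :=
  (ev_Θ z n).mono fun _ h => (Θ_eq.1 h).2.1

theorem ev_atom (z : D.Y) (n : ℕ) : ∀ᶠ y : D.Y in 𝓝 z, y ∈ D.atom n (it D.e z) := by
  filter_upwards [(isClopen_bl ind z n).isOpen.mem_nhds (self_bl z _)] with y hy
  exact fun i hi => (Θ_eq.1 (hy i hi)).2.1

theorem ev_Ps {z : D.Y} {j : ℕ} (h : z ∈ D.Ps j) : ∀ᶠ y : D.Y in 𝓝 z, y ∈ D.Ps j :=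
  (ev_Θ z j).mono fun _ h' => dd_eq_zero.1 ((Θ_eq.1 h').2.2.trans (dd_eq_zero.2 h))

theorem tendsto_of {α : Type} {l : Filter α} {f : α → D.Y} {z : D.Y}
    (h1 : ∀ n, ∀ᶠ a in l, agr n (f a) z) (h2 : ∀ n, ∀ᶠ a in l, it D.e (f a) n = it D.e z n)
    (h3 : ∀ j, z ∈ D.Ps j → ∀ᶠ a in l, f a ∈ D.Ps j) : Tendsto f l (𝓝 z) := by
  rw [ind.tendsto_nhds_iff, tendsto_pi_nhds]
  intro n
  rw [nhds_discrete, tendsto_pure]
  have h4 : ∀ᶠ a in l, D.dd (f a) n = D.dd z n := by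
    by_cases hz : z ∈ D.Ps n
    · exact (h3 n hz).mono fun a ha => (dd_eq_zero.2 ha).trans (dd_eq_zero.2 hz).symm
    · exact (h1 _).mono fun a ha => dd_congr hz ha
  filter_upwards [h1 (n + 1), h2 n, h4] with a h5 h6 h7
  exact Θ_eq.2 ⟨h5 n (by omega), h6, h7⟩

theorem clopen_atom (k : ℕ) (s : ℕ → ℕ) : IsClopen (X := D.Y) (D.atom k s) := by
  constructor
  · rw [← isOpen_compl_iff, isOpen_iff_mem_nhds]
    intro x hx
    filter_upwards [ev_atom x k] with y hy hy'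
    exact hx fun i hi => (hy i hi).symm.trans (hy' i hi)
  · rw [isOpen_iff_mem_nhds]
    intro x hx
    filter_upwards [ev_atom x k] with y hy
    exact fun i hi => (hy i hi).trans (hx i hi)

theorem ev_bits {n : ℕ} {f : X → X} {A : Set D.Y} (h : ∀ x ∈ A, D.S.R n x (f x)) {x : D.Y}
    (hx : x ∈ A) (q : ℕ) : ∀ᶠ y : D.Y in nhdsWithin (X := D.Y) x A, agr q (f y) (f x) := by
  obtain ⟨m, hm⟩ := D.S.cont n x _ (h x hx) q
  filter_upwards [self_mem_nhdsWithin, mem_nhdsWithin_of_mem_nhds (ev_agr x m)] with y hy hy'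
  exact hm y _ (h y hy) hy'

variable (D) in
def arr (k : ℕ) (s : ℕ → ℕ) (x : X) : X := mu D.e k s (res D.e k x)

theorem arr_mem (k : ℕ) (s : ℕ → ℕ) (x : X) : D.arr k s x ∈ D.atom k s :=
  fun _ hi => it_mu hi _ _

theorem res_arr (k : ℕ) (s : ℕ → ℕ) (x : X) : res D.e k (D.arr k s x) = res D.e k x := res_mu _ _ _

theorem arr_self {k : ℕ} {s : ℕ → ℕ} {x : X} (h : x ∈ D.atom k s) : D.arr k s x = x := by
  simp only [arr]
  rw [← mu_congr h]
  exact mu_res k x

theorem arr_arr (k : ℕ) (s s' : ℕ → ℕ) (x : X) : D.arr k s (D.arr k s' x) = D.arr k s x := by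
  simp only [arr, res_mu]

theorem it_arr_ge {k i : ℕ} (h : k ≤ i) (s : ℕ → ℕ) (x : X) :
    it D.e (D.arr k s x) i = it D.e x i := it_congr (res_arr k s x) h

theorem arr_mu {k t : ℕ} (h : k ≤ t) {s' u u' : ℕ → ℕ} (h1 : ∀ i < k, u' i = s' i)
    (h2 : ∀ i, k ≤ i → i < t → u' i = u i) (a : X) :
    D.arr k s' (mu D.e t u a) = mu D.e t u' a := by
  have e1 : D.arr k s' (mu D.e t u a) ∈ D.atom t u' := fun i hi => by
    by_cases hk : i < k
    · rw [arr_mem k s' _ i hk, h1 i hk]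
    · rw [it_arr_ge (by omega), it_mu hi, h2 i (by omega) hi]
  have e2 := arr_self e1
  rw [← e2]
  simp only [arr]
  rw [res_congr (res_mu k s' _) h, res_mu]

theorem arr_R (k : ℕ) (s s' : ℕ → ℕ) : ∃ n, ∀ x ∈ D.atom k s, D.S.R n x (D.arr k s' x) := by
  obtain ⟨i, hi⟩ := T_mu D.eT k s
  obtain ⟨j, hj⟩ := T_mu D.eT k s'
  obtain ⟨i', hi'⟩ := D.S.symm i
  obtain ⟨n, hn⟩ := D.S.comp i' j
  refine ⟨n, fun x hx => hn x (res D.e k x) _ ((hi' _ _).2 ?_) (hj _)⟩
  have := hi (res D.e k x)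
  rwa [show mu D.e k s (res D.e k x) = x from arr_self hx] at this

theorem arr_cont (k : ℕ) (s s' : ℕ → ℕ) :
    ContinuousOn (X := D.Y) (Y := D.Y) (D.arr k s') (D.atom k s) := by
  obtain ⟨n, hn⟩ := arr_R (D := D) k s s'
  intro x hx
  have hit : ∀ i, ∀ᶠ y : D.Y in 𝓝 x, it D.e (D.arr k s' y) i = it D.e (D.arr k s' x) i := by
    intro i
    by_cases hi : i < k
    · exact Eventually.of_forall fun y => (arr_mem k s' y i hi).trans (arr_mem k s' x i hi).symm
    · filter_upwards [ev_it x i] with y hy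
      rw [it_arr_ge (by omega), it_arr_ge (by omega), hy]
  refine tendsto_of (ev_bits hn hx) (fun i => mem_nhdsWithin_of_mem_nhds (hit i)) fun j hj => ?_
  rcases hj with hj | ⟨t, h1, h2, h3⟩
  · obtain ⟨C, hC, hC'⟩ := D.P_pre _ ⟨j, rfl⟩ n
    obtain ⟨j', hj', rfl⟩ := D.P_cof C hC (max (max j k) ((Finset.range k).sup s'))
    have hx' : x ∈ D.Ps j' := Or.inl ((hC' _ _ (hn x hx)).2 hj)
    filter_upwards [self_mem_nhdsWithin, mem_nhdsWithin_of_mem_nhds (ev_Ps hx')] with y hy hy'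
    rcases hy' with hy' | ⟨t, h1, h2, h3⟩
    · exact Or.inl ((hC' _ _ (hn y hy)).1 hy')
    · have hkt : k ≤ t := by omega
      refine Or.inr ⟨t, by omega, ⟨?_, fun i hi => ?_⟩, ?_⟩
      · rw [it_arr_ge hkt, h2.1]
      · by_cases hik : i < k
        · rw [arr_mem k s' y i hik]
          have := Finset.le_sup (f := s') (Finset.mem_range.2 hik)
          have := D.b_ge t
          omega
        · rw [it_arr_ge (by omega)]
          exact h2.2 i hi
      · have h4 : D.att t y ∈ D.atom k s := fun i hi =>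
          (it_mu (by omega) _ _).trans (hy i hi)
        have h5 := (hC' _ _ (hn _ h4)).1 h3
        simp only [att] at h5 ⊢
        rwa [arr_mu hkt (arr_mem k s' y) fun i hi _ => it_arr_ge hi s' y] at h5
  · have : ∀ᶠ y : D.Y in 𝓝 x, ∀ i ∈ Finset.range (t + 1),
        it D.e (D.arr k s' y) i = it D.e (D.arr k s' x) i :=
      (eventually_all_finset _).2 fun i _ => hit i
    filter_upwards [mem_nhdsWithin_of_mem_nhds this] with y hy
    obtain ⟨h4, h5⟩ := prim_congr (y := D.arr k s' y) (fun i hi => hy i (Finset.mem_range.2 hi)) h2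
    exact Or.inr ⟨t, h1, h4, h5 ▸ h3⟩

theorem arr_iso (k : ℕ) (s s' : ℕ → ℕ) :
    IsoF (Y := D.Y) D.S.E (D.arr k s') (D.arr k s) (D.atom k s) (D.atom k s') :=
  ⟨fun x _ => arr_mem k s' x, fun x _ => arr_mem k s x,
    fun x hx => (arr_arr _ _ _ _).trans (arr_self hx),
    fun x hx => (arr_arr _ _ _ _).trans (arr_self hx), arr_cont k s s', arr_cont k s' s,
    fun x hx => by
      obtain ⟨n, hn⟩ := arr_R (D := D) k s s'
      exact ⟨n, hn x hx⟩⟩

theorem dense_prim {U : Set D.Y} (hU : IsOpen U) {z : D.Y} (hz : z ∈ U) (r : ℕ) :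
    ∃ t, r ≤ t ∧ ∃ s, ∀ y ∈ D.atom (t + 1) s, y ∈ U ∧ D.Prim t y := by
  obtain ⟨n, hn⟩ := exists_bl ind (hU.mem_nhds hz)
  have one : ∀ i, ∃ C ∈ range D.P, ∃ k, z ∈ C ∧ ∀ t, k ≤ t → ∀ w ∈ C, ∀ y, D.Prim t y →
      D.att t y = w → y ∈ D.atom t (it D.e w) → D.Θ y i = D.Θ z i := by
    intro i
    have cylm : ∀ m, {y : X | agr m y z} ∈ range D.P := fun m => by
      rw [← range_cat]
      exact D.P_range _ (Sys.T_cat _ _)
    have h3 : ∃ C ∈ range D.P, ∃ k, z ∈ C ∧ ∀ t, k ≤ t → ∀ w ∈ C, ∀ y, D.Prim t y →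
        D.att t y = w → y ∈ D.atom t (it D.e w) → D.dd y i = D.dd z i := by
      by_cases hi : z ∈ D.Ps i
      · rw [dd_eq_zero.2 hi]
        rcases hi with hi | ⟨t', h1, h2, h3⟩
        · exact ⟨_, ⟨i, rfl⟩, i, hi, fun t ht w hw y hy hy' _ =>
            dd_eq_zero.2 (Or.inr ⟨t, ht, hy, hy' ▸ hw⟩)⟩
        · refine ⟨_, atom_mem (t' + 1) (it D.e z), t' + 1, atom_self _ _,
            fun t ht w hw y _ _ hy => dd_eq_zero.2 ?_⟩
          obtain ⟨h4, h5⟩ := prim_congr (y := y)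
            (fun j hj => (hy j (by omega)).trans (hw j hj)) h2
          exact Or.inr ⟨t', h1, h4, h5 ▸ h3⟩
      · exact ⟨_, cylm (D.dd z i), D.dd z i, agr.refl _ _, fun t ht w hw y hy hy' _ =>
          dd_congr hi (((agr_att hy).mono ht).trans (hy' ▸ hw))⟩
    obtain ⟨C, hC, k, hzC, h3⟩ := h3
    refine ⟨_, D.P_inter _ (D.P_inter _ (cylm (i + 1)) _ (atom_mem (i + 1) (it D.e z))) _ hC,
      max k (i + 1), ⟨⟨agr.refl _ _, atom_self _ _⟩, hzC⟩, fun t ht w hw y hy hy' hy'' =>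
        Θ_eq.2 ⟨?_, ?_, h3 t (by omega) w hw.2 y hy hy' hy''⟩⟩
    · exact (agr_att hy i (by omega)).trans (hy' ▸ hw.1.1 i (by omega))
    · exact (hy'' i (by omega)).trans (hw.1.2 i (by omega))
  have all : ∀ m, ∃ C ∈ range D.P, ∃ k, z ∈ C ∧ ∀ t, k ≤ t → ∀ w ∈ C, ∀ y, D.Prim t y →
      D.att t y = w → y ∈ D.atom t (it D.e w) → ∀ i < m, D.Θ y i = D.Θ z i := by
    intro m
    induction m with
    | zero =>
      exact ⟨_, atom_mem 0 (it D.e z), 0, atom_self _ _, fun _ _ _ _ _ _ _ _ i hi => by omega⟩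
    | succ m ih =>
      obtain ⟨C, hC, k, h1, h2⟩ := ih
      obtain ⟨C', hC', k', h3, h4⟩ := one m
      refine ⟨_, D.P_inter _ hC _ hC', max k k', ⟨h1, h3⟩, fun t ht w hw y hy hy' hy'' i hi => ?_⟩
      rcases Nat.lt_succ_iff_lt_or_eq.1 hi with h | rfl
      · exact h2 t (by omega) w hw.1 y hy hy' hy'' i h
      · exact h4 t (by omega) w hw.2 y hy hy' hy''
  obtain ⟨C, hC, k, h1, h2⟩ := all n
  obtain ⟨t, ht, rfl⟩ := D.P_cof C hC (max r k)
  have hw := D.z_mem t ⟨z, h1⟩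
  refine ⟨t, by omega, Function.update (it D.e (D.z t)) t 0, fun y hy => ?_⟩
  have h3 : y ∈ D.atom t (it D.e (D.z t)) := fun i hi => by
    rw [hy i (by omega), Function.update_of_ne (by omega)]
  have h4 : D.Prim t y := ⟨by rw [hy t (by omega), Function.update_self],
    fun i hi => (h3 i hi).trans_le (D.b_it t i hi)⟩
  refine ⟨hn (h2 t (by omega) _ hw y h4 ?_ h3), h4⟩
  simp only [att]
  rw [mu_congr h3]
  exact mu_res _ _

theorem atom_children (k : ℕ) (s : ℕ → ℕ) :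
    (⋃ n, D.atom (k + 1) (Function.update s k n)) = D.atom k s := by
  ext y
  simp only [mem_iUnion]
  constructor
  · rintro ⟨n, hn⟩ i hi
    rw [hn i (by omega), Function.update_of_ne (by omega)]
  · intro h
    refine ⟨it D.e y k, fun i hi => ?_⟩
    rcases Nat.lt_succ_iff_lt_or_eq.1 hi with h' | rfl
    · rw [Function.update_of_ne (by omega), h i h']
    · rw [Function.update_self]

theorem children_disj (k : ℕ) (s : ℕ → ℕ) {m n : ℕ} (h : m ≠ n) :
    Disjoint (D.atom (k + 1) (Function.update s k m)) (D.atom (k + 1) (Function.update s k n)) :=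
  Set.disjoint_left.2 fun y h1 h2 => h (by
    have e1 := h1 k (by omega)
    have e2 := h2 k (by omega)
    rw [Function.update_self] at e1 e2
    exact e1.symm.trans e2)

theorem iso_atom (k : ℕ) (s : ℕ → ℕ) : Iso (Y := D.Y) D.S.E univ (D.atom k s) := by
  obtain ⟨c⟩ : Nonempty ((Fin (k + 1) → ℕ) ≃ ℕ) := nonempty_equiv_of_countable
  let ex : (Fin (k + 1) → ℕ) → ℕ → ℕ := fun u i => if h : i < k + 1 then u ⟨i, h⟩ else 0
  have := Iso.glue (Y := D.Y) (E := D.S.E) (V := fun u => D.atom (k + 1) (ex u))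
    (W := fun u => D.atom (k + 1) (Function.update s k (c u)))
    (fun u => (clopen_atom _ _).isOpen) (fun u => (clopen_atom _ _).isOpen)
    (fun u v huv => Set.disjoint_left.2 fun y h1 h2 => huv (funext fun i => by
      have e1 := h1 i i.2
      have e2 := h2 i i.2
      simp only [ex, dif_pos i.2] at e1 e2
      exact e1.symm.trans e2))
    (fun u v huv => children_disj k s (c.injective.ne huv))
    fun u => ⟨_, _, arr_iso _ _ _⟩
  have e1 : (⋃ u, D.atom (k + 1) (ex u)) = univ := eq_univ_of_forall fun y =>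
    mem_iUnion.2 ⟨fun i => it D.e y i, fun i hi => by simp only [ex, dif_pos hi]⟩
  have e2 : (⋃ u, D.atom (k + 1) (Function.update s k (c u))) = D.atom k s := by
    rw [← atom_children k s]
    exact c.surjective.iUnion_comp fun n => D.atom (k + 1) (Function.update s k n)
  exact e1 ▸ e2 ▸ this

theorem rich : Rich (Y := D.Y) D.S.E := by
  rintro U hU ⟨z, hz⟩
  obtain ⟨t, -, s, hs⟩ := dense_prim hU hz 0
  refine ⟨fun n => D.atom (t + 1 + 1) (Function.update s (t + 1) n), fun n => clopen_atom _ _,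
    fun m n h => children_disj _ _ h, ?_, fun n y hy => (hs y ?_).1, fun n => iso_atom _ _⟩
  · have := (clopen_atom (D := D) (t + 1) s).isClosed
    rw [← atom_children] at this
    exact this
  · rw [← atom_children]
    exact mem_iUnion.2 ⟨n, hy⟩

theorem homeo : Nonempty (D.Y ≃ₜ (ℕ → ℕ)) := by
  refine baire_of_closed cemb ?_
  rintro U hU ⟨z, hz⟩
  obtain ⟨t, -, s, hs⟩ := dense_prim hU hz 0
  choose u hu using fun n => atom_ne (D := D) (t + 1 + 1) (Function.update s (t + 1) n)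
  refine ⟨u, t + 1, fun n => (hs _ ?_).1, fun m n h h' => h ?_⟩
  · rw [← atom_children]
    exact mem_iUnion.2 ⟨n, hu n⟩
  · have e1 := hu m (t + 1) (by omega)
    have e2 := hu n (t + 1) (by omega)
    rw [Function.update_self] at e1 e2
    rw [← e1, ← e2]
    exact (Θ_eq.1 h').2.1

variable (D) in
def Xr (r : ℕ) : Set D.Y := {x | ∀ t, r ≤ t → ¬ D.Prim t x}

theorem not_Xr {r : ℕ} {x : X} (h : x ∉ D.Xr r) : ∃ t, r ≤ t ∧ D.Prim t x := by
  by_contra h'
  exact h fun t ht hp => h' ⟨t, ht, hp⟩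

theorem closed_Xr (r : ℕ) : IsClosed (D.Xr r) := by
  rw [← isOpen_compl_iff, isOpen_iff_mem_nhds]
  intro x hx
  simp only [Xr, mem_compl_iff, mem_ofPred_eq, not_forall, not_not] at hx
  obtain ⟨t, ht, hx⟩ := hx
  filter_upwards [ev_atom x (t + 1)] with y hy hy'
  exact hy' t ht (prim_congr hy hx).1

theorem interior_Xr (r : ℕ) : interior (D.Xr r) = ∅ := by
  rw [eq_empty_iff_forall_notMem]
  intro z hz
  obtain ⟨t, ht, s, hs⟩ := dense_prim isOpen_interior hz r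
  obtain ⟨y, hy⟩ := atom_ne (D := D) (t + 1) s
  exact interior_subset (X := D.Y) (hs y hy).1 t ht (hs y hy).2

theorem rel_open {C : Set X} (hC : C ∈ range D.P) {x : D.Y} (hx : x ∈ C) (r : ℕ) :
    ∀ᶠ y : D.Y in 𝓝 x, y ∈ D.Xr r → y ∈ C := by
  obtain ⟨j, hj, rfl⟩ := D.P_cof C hC r
  filter_upwards [ev_Ps (Or.inl hx : x ∈ D.Ps j)] with y hy hy'
  rcases hy with hy | ⟨t, h1, h2, -⟩
  · exact hy
  · exact absurd h2 (hy' t (by omega))

variable (D) in
def Ar (n r : ℕ) : Set D.Y := {x | x ∈ D.Xr r ∧ ∃ y, D.S.R n x y ∧ y ∈ D.Xr r}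

open Classical in
variable (D) in
noncomputable def fn (n : ℕ) (x : X) : X := if h : ∃ y, D.S.R n x y then h.choose else x

theorem fn_eq {n : ℕ} {x y : X} (h : D.S.R n x y) : D.fn n x = y := by
  have h1 : ∃ y, D.S.R n x y := ⟨y, h⟩
  simp only [fn, dif_pos h1]
  exact D.S.func n x _ _ h1.choose_spec h

theorem closed_Ar (n r : ℕ) : IsClosed (D.Ar n r) := by
  rw [← isOpen_compl_iff, isOpen_iff_mem_nhds]
  intro x hx
  by_cases h1 : x ∈ D.Xr r
  · by_cases h2 : ∃ y, D.S.R n x y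
    · obtain ⟨y, hy⟩ := h2
      have h3 : y ∉ D.Xr r := fun h => hx ⟨h1, y, hy, h⟩
      obtain ⟨t, ht, h3⟩ := not_Xr h3
      obtain ⟨C, hC, hC'⟩ := D.P_pre _ (atom_mem (t + 1) (it D.e y)) n
      filter_upwards [rel_open hC ((hC' x y hy).2 (atom_self _ _)) r] with w hw
      rintro ⟨h4, v, h5, h6⟩
      exact h6 t ht (prim_congr ((hC' w v h5).1 (hw h4)) h3).1
    · obtain ⟨C, hC, h3, h4⟩ := D.P_dom n x h2
      filter_upwards [rel_open hC h3 r] with w hw
      rintro ⟨h5, v, h6, -⟩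
      exact h4 w (hw h5) ⟨v, h6⟩
  · filter_upwards [(closed_Xr r).isOpen_compl.mem_nhds h1] with w hw hw'
    exact hw hw'.1

theorem fn_cont (n r : ℕ) : ContinuousOn (X := D.Y) (Y := D.Y) (D.fn n) (D.Ar n r) := by
  have hR : ∀ x ∈ D.Ar n r, D.S.R n x (D.fn n x) := by
    rintro x ⟨-, y, hy, -⟩
    rwa [fn_eq hy]
  intro x hx
  have key : ∀ C ∈ range D.P, D.fn n x ∈ C →
      ∀ᶠ y : D.Y in nhdsWithin (X := D.Y) x (D.Ar n r), D.fn n y ∈ C := by
    intro C hC hx'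
    obtain ⟨C', hC', h⟩ := D.P_pre C hC n
    filter_upwards [self_mem_nhdsWithin,
      mem_nhdsWithin_of_mem_nhds (rel_open hC' ((h _ _ (hR x hx)).2 hx') r)] with y hy hy'
    exact (h _ _ (hR y hy)).1 (hy' hy.1)
  refine tendsto_of (ev_bits hR hx) (fun i => ?_) fun j hj => ?_
  · exact (key _ (atom_mem (i + 1) _) (atom_self _ _)).mono fun y hy => hy i (by omega)
  · rcases hj with hj | ⟨t, h1, h2, h3⟩
    · exact (key _ ⟨j, rfl⟩ hj).mono fun y hy => Or.inl hy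
    · refine (key _ (atom_mem (t + 1) _) (atom_self _ _)).mono fun y hy => ?_
      obtain ⟨h4, h5⟩ := prim_congr hy h2
      exact Or.inr ⟨t, h1, h4, h5 ▸ h3⟩

theorem fn_iso {n m : ℕ} (h : ∀ x y, D.S.R m y x ↔ D.S.R n x y) (r : ℕ) :
    IsoF (Y := D.Y) D.S.E (D.fn n) (D.fn m) (D.Ar n r) (D.Ar m r) := by
  refine ⟨?_, ?_, ?_, ?_, fn_cont n r, fn_cont m r, ?_⟩
  · rintro x ⟨h1, y, h2, h3⟩
    rw [fn_eq h2]
    exact ⟨h3, x, (h x y).2 h2, h1⟩
  · rintro y ⟨h1, x, h2, h3⟩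
    rw [fn_eq h2]
    exact ⟨h3, y, (h x y).1 h2, h1⟩
  · rintro x ⟨-, y, h2, -⟩
    rw [fn_eq h2, fn_eq ((h x y).2 h2)]
  · rintro y ⟨-, x, h2, -⟩
    rw [fn_eq h2, fn_eq ((h x y).1 h2)]
  · rintro x ⟨-, y, h2, -⟩
    rw [fn_eq h2]
    exact ⟨n, h2⟩

theorem generic {x y : X} {n : ℕ} (h : D.S.R n x y) (hx : ∀ r, x ∉ D.Xr r) :
    ∃ k s, y = D.arr k s x := by
  obtain ⟨t, ht, hp⟩ := not_Xr (hx n)
  obtain ⟨s', hs'⟩ := D.dec t (it D.e x) hp.2 n ht
  exact ⟨t + 1, s', hs' _ y (by rw [prim_eq hp]; exact h)⟩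

theorem fsigma {W : Set D.Y} (hW : IsOpen W) :
    ∃ F : ℕ → Set X, (∀ n, IsClosed (F n)) ∧ W = ⋃ n, F n := by
  classical
  let G : List ℕ → Set X := fun l =>
    if h : ∃ z : D.Y, pr D.Θ z l.length = l ∧ bl D.Θ z l.length ⊆ W then
      bl D.Θ h.choose l.length else ∅
  refine ⟨fun n => G (Denumerable.ofNat (List ℕ) n), fun n => ?_, ?_⟩
  · simp only [G]
    split_ifs
    · exact closed_bl _ _
    · exact isClosed_empty
  · ext x
    simp only [mem_iUnion]
    constructor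
    · intro hx
      obtain ⟨n, hn⟩ := exists_bl ind (hW.mem_nhds hx)
      refine ⟨Encodable.encode (pr D.Θ x n), ?_⟩
      have h : ∃ z : D.Y, pr D.Θ z (pr D.Θ x n).length = pr D.Θ x n ∧
          bl D.Θ z (pr D.Θ x n).length ⊆ W := ⟨x, by rw [length_pr], by rwa [length_pr]⟩
      simp only [Denumerable.ofNat_encode, G, dif_pos h]
      have h1 := h.choose_spec.1
      refine pr_eq_iff.1 (Eq.trans ?_ h1.symm)
      rw [length_pr]
    · rintro ⟨n, hn⟩
      simp only [G] at hn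
      split_ifs at hn with h
      · exact h.choose_spec.2 hn
      · exact hn.elim

end Data

theorem main (S : Sys) :
    ∃ (Γ : Type) (_ : Group Γ) (_ : Countable Γ) (_ : MulAction Γ (ℕ → ℕ)),
      ContinuousConstSMul Γ (ℕ → ℕ) ∧ ∃ Φ : X → (ℕ → ℕ), Function.Bijective Φ ∧
        (∀ U : Set (ℕ → ℕ), IsOpen U →
          ∃ F : ℕ → Set X, (∀ n, IsClosed (F n)) ∧ Φ ⁻¹' U = ⋃ n, F n) ∧
        ∀ x y, S.E x y ↔ ∃ g : Γ, g • Φ x = Φ y := by
  obtain ⟨D, rfl⟩ := exists_data S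
  obtain ⟨φ⟩ := Data.homeo (D := D)
  let ex : List ℕ → ℕ → ℕ := fun l i => l.getD i 0
  have hex : ∀ (k : ℕ) (s : ℕ → ℕ), ∀ i < k, ex ((List.range k).map s) i = s i := fun k s i hi => by
    simp [ex, List.getD, hi]
  let Sx : (ℕ × List ℕ × List ℕ) ⊕ (ℕ × ℕ × ℕ × ℕ × ℕ) → D.Y → D.Y → Prop := fun k x y =>
    k.elim (fun p => x ∈ D.atom p.1 (ex p.2.1) ∧ y = D.arr p.1 (ex p.2.2) x)
      fun p => p.2.2.2.1 ≠ p.2.2.2.2 ∧ x ∈ D.Ar p.1 p.2.1 ∧ y = D.fn p.1 x ∧
        D.Θ x p.2.2.1 = p.2.2.2.1 ∧ D.Θ y p.2.2.1 = p.2.2.2.2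
  have hE : Equivalence (α := D.Y) D.S.E := Sys.E_equiv
  have harr : ∀ (x y : D.Y) k s, y = D.arr k s x → ∃ k, Sx k x y := by
    intro x y k s h
    refine ⟨Sum.inl (k, (List.range k).map (it D.e x), (List.range k).map s),
      fun i hi => (hex k _ i hi).symm, ?_⟩
    rw [h]
    simp only [Data.arr]
    rw [mu_congr (hex k s)]
  obtain ⟨Γ, i1, i2, i3, h1, h2⟩ := pack hE φ Sx (by
      rintro (⟨k, l, l'⟩ | ⟨n, r, q, a, b⟩)
      · by_cases hd : Disjoint (D.atom k (ex l)) (D.atom k (ex l'))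
        · obtain ⟨γ, h1, h2⟩ := ext_clopen hE (Data.arr_iso k (ex l) (ex l'))
            (Data.clopen_atom _ _) (Data.clopen_atom _ _) hd
          exact ⟨γ, h1, fun x y h => (h2 x h.1).trans h.2.symm⟩
        · obtain ⟨w, h1, h2⟩ := Set.not_disjoint_iff.1 hd
          refine ⟨Homeomorph.refl _, fun y => hE.refl y, fun x y h => ?_⟩
          exact (h.2.trans (Data.arr_self fun i hi =>
            (h.1 i hi).trans ((h1 i hi).symm.trans (h2 i hi)))).symm
      · by_cases hab : a = b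
        · exact ⟨Homeomorph.refl _, fun y => hE.refl y, fun x y h => absurd hab h.1⟩
        · obtain ⟨m, hm⟩ := D.S.symm n
          have hcl : ∀ c, IsClopen {w : D.Y | D.Θ w q = c} := fun c =>
            (isClopen_discrete {c}).preimage ((continuous_apply q).comp Data.ind.continuous)
          have hi : ∀ n, interior (D.Ar n r) = ∅ := fun n => subset_empty_iff.1
            (Data.interior_Xr (D := D) r ▸ interior_mono fun x hx => hx.1)
          obtain ⟨γ, h1, h2⟩ := ext_closed hE Data.rich Data.ind (Data.fn_iso hm r)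
            (Data.closed_Ar n r) (Data.closed_Ar m r) (hi n) (hi m) (hcl a) (hcl b)
            (Set.disjoint_left.2 fun w h1 h2 => hab (Eq.trans (Eq.symm h1) h2))
          refine ⟨γ, h1, fun x y h => ?_⟩
          obtain ⟨-, h3, h4, h5, h6⟩ := h
          subst h4
          exact h2 x h3 h5 h6)
    (by
      rintro x y ⟨n, hn⟩
      by_cases hx : ∀ r, x ∉ D.Xr r
      · obtain ⟨k, s, h⟩ := Data.generic hn hx
        exact harr x y k s h
      · by_cases hy : ∀ r, y ∉ D.Xr r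
        · obtain ⟨m, hm⟩ := D.S.symm n
          obtain ⟨k, s, h⟩ := Data.generic ((hm x y).2 hn) hy
          refine harr x y k (it D.e y) ?_
          rw [h, Data.arr_arr, Data.arr_self (Data.atom_self _ _)]
        · push Not at hx hy
          obtain ⟨r, hr⟩ := hx
          obtain ⟨r', hr'⟩ := hy
          by_cases hxy : x = y
          · exact harr x y 0 (fun _ => 0) hxy.symm
          · obtain ⟨q, hq⟩ := Function.ne_iff.1 (Data.Θ_inj.ne hxy)
            exact ⟨Sum.inr (n, max r r', q, D.Θ x q, D.Θ y q), hq,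
              ⟨fun t ht => hr t (le_trans (le_max_left _ _) ht), y, hn,
                fun t ht => hr' t (le_trans (le_max_right _ _) ht)⟩,
              (Data.fn_eq hn).symm, rfl, rfl⟩)
  exact ⟨Γ, i1, i2, i3, h1, φ, φ.bijective,
    fun U hU => Data.fsigma (hU.preimage φ.continuous), h2⟩

end Pool.Agent.H874Z.Sy
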