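import Pool.Agent.H874Z.Sys
import Pool.Agent.Helper227.Test

set_option autoImplicit false

namespace Pool.Agent.H874Z.Tu

open Set Filter Topology Encodable Pool.Agent.Helper227 Pool.Agent.H874Z.Sy

abbrev Tri : Type := List Bool × ℕ × Bool

def Mono (E : Tri → Prop) : Prop := ∀ σ τ n b, σ <+: τ → E (σ, n, b) → E (τ, n, b)

def Cmp (E : Tri → Prop) (x y : X) : Prop := ∀ n b, y n = b ↔ ∃ s, E (pre x s, n, b)

def Op : Type := {E : Tri → Prop // S1 E ∧ Mono E}

theorem countable_S1 {α : Type} [Primcodable α] : {p : α → Prop | S1 p}.Countable := by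
  refine (countable_range fun c : Nat.Partrec.Code => fun a : α => (c.eval (encode a)).Dom).mono ?_
  intro p hp
  obtain ⟨c, hc⟩ := Nat.Partrec.Code.exists_code.1 hp.re
  refine ⟨c, funext fun a => propext ?_⟩
  simp only [hc]
  simp [Part.assert]

instance : Countable Op := (countable_S1.mono (fun _ h => h.1) : {E : Tri → Prop | S1 E ∧ Mono E}.Countable)

instance : Nonempty Op := ⟨⟨fun _ => True, S1.of_prim (PP.const True), fun _ _ _ _ _ h => h⟩⟩

theorem pre_congr {n : ℕ} {x y : X} (h : agr n x y) : pre x n = pre y n :=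
  List.map_congr_left fun i hi => h i (List.mem_range.1 hi)

theorem eq_pre {x : X} {σ : List Bool} (h : ∀ i < σ.length, x i = σ.getD i false) :
    pre x σ.length = σ := by
  refine List.ext_getElem (by simp) fun i h5 h6 => ?_
  rw [getElem_pre, h i h6]
  simp [h6]

theorem mk_op {E : Tri → Prop} (hE : S1 E) : ∃ F : Op, ∀ x y, Cmp E x y → Cmp F.1 x y := by
  refine ⟨⟨fun p => ∃ ρ : List Bool, (∃ υ : List Bool, ρ ++ υ = p.1) ∧ E (ρ, p.2), ?_, ?_⟩, ?_⟩
  · refine S1.ex (S1.and (S1.ex (S1.of_prim ?_)) (hE.comp ?_))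
    · exact Primrec.eq.comp (Primrec.list_append.comp (Primrec.snd.comp Primrec.fst) Primrec.snd)
        (Primrec.fst.comp (Primrec.fst.comp Primrec.fst))
    · exact Primrec.snd.pair (Primrec.snd.comp Primrec.fst)
  · rintro σ τ n b h ⟨ρ, h1, h2⟩
    exact ⟨ρ, List.IsPrefix.trans h1 h, h2⟩
  · intro x y h n b
    rw [h n b]
    constructor
    · rintro ⟨s, hs⟩
      exact ⟨s, _, ⟨[], by simp⟩, hs⟩
    · rintro ⟨s, ρ, h1, h2⟩
      exact ⟨ρ.length, by rw [← pre_eq_of_prefix h1]; exact h2⟩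

theorem tot {G : List Bool × ℕ → Bool} (hG : Computable G) {u : ℕ → ℕ} (hu : Computable u) :
    ∃ F : Op, ∀ x y, (∀ k, y k = G (pre x (u k), k)) → Cmp F.1 x y := by
  have h1 : S1 fun p : Tri => p.1.length = u p.2.1 ∧ G (p.1, p.2.1) = p.2.2 := by
    refine S1.and ?_ ?_
    · exact (S1.of_prim (p := fun q : ℕ × ℕ => q.1 = q.2) Primrec.eq).comp_computable
        (f := fun p : Tri => (p.1.length, u p.2.1))
        ((Computable.list_length.comp Computable.fst).pair
          (hu.comp (Computable.fst.comp Computable.snd)))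
    · exact (S1.of_prim (p := fun q : Bool × Bool => q.1 = q.2) Primrec.eq).comp_computable
        (f := fun p : Tri => (G (p.1, p.2.1), p.2.2))
        ((hG.comp (Computable.fst.pair (Computable.fst.comp Computable.snd))).pair
          (Computable.snd.comp Computable.snd))
  obtain ⟨F, hF⟩ := mk_op h1
  refine ⟨F, fun x y h => hF x y fun n b => ?_⟩
  rw [h]
  constructor
  · intro hb
    exact ⟨u n, by simp, hb⟩
  · rintro ⟨s, h2, h3⟩
    simp only [length_pre] at h2
    subst h2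
    exact h3

theorem query {f : ℕ → ℕ} (hf : Primrec f) :
    ∃ F : Op, ∀ x y, (∀ k, y k = x (f k)) → Cmp F.1 x y := by
  obtain ⟨F, hF⟩ := tot (G := fun p => p.1.getD (f p.2) false) (u := fun k => f k + 1)
    ((Primrec.list_getD false).comp Primrec.fst (hf.comp Primrec.snd)).to_comp
    (Primrec.succ.comp hf).to_comp
  exact ⟨F, fun x y h => hF x y fun k => by rw [h, pre_getD _ _ _ _ (Nat.lt_succ_self _)]⟩

theorem unif {E : Tri → Prop} (hm : Mono E) {x : X} {c : ℕ → Bool} (n : ℕ)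
    (h : ∀ i < n, ∃ s, E (pre x s, i, c i)) : ∃ s, ∀ i < n, E (pre x s, i, c i) := by
  choose! s hs using h
  exact ⟨(Finset.range n).sup s, fun i hi => hm _ _ _ _
    (pre_prefix x (Finset.le_sup (f := s) (Finset.mem_range.2 hi))) (hs i hi)⟩

/-- composition of operators -/
def oc (E F : Op) : Op :=
  ⟨fun p => ∃ τ : List Bool, (∀ i < τ.length, E.1 (p.1, i, τ.getD i false)) ∧ F.1 (τ, p.2), by
    refine S1.ex (S1.and (S1.all_lt (α := Tri × List Bool)
      (p := fun q i => E.1 (q.1.1, i, q.2.getD i false)) (f := fun q => q.2.length)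
      (E.2.1.comp ?_) (Primrec.list_length.comp Primrec.snd)) (F.2.1.comp ?_))
    · exact (Primrec.fst.comp (Primrec.fst.comp Primrec.fst)).pair (Primrec.snd.pair
        ((Primrec.list_getD false).comp (Primrec.snd.comp Primrec.fst) Primrec.snd))
    · exact Primrec.snd.pair (Primrec.snd.comp Primrec.fst), by
    rintro σ τ n b h ⟨ρ, h1, h2⟩
    exact ⟨ρ, fun i hi => E.2.2 _ _ _ _ h (h1 i hi), h2⟩⟩

theorem oc_iff {E F : Op} {x y : X} (h : Cmp E.1 x y) (n : ℕ) (b : Bool) :
    (∃ s, (oc E F).1 (pre x s, n, b)) ↔ ∃ t, F.1 (pre y t, n, b) := by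
  constructor
  · rintro ⟨s, τ, h1, h2⟩
    exact ⟨τ.length, by rw [eq_pre fun i hi => (h i _).2 ⟨s, h1 i hi⟩]; exact h2⟩
  · rintro ⟨t, ht⟩
    obtain ⟨s, hs⟩ := unif E.2.2 (c := y) t fun i _ => (h i _).1 rfl
    refine ⟨s, pre y t, fun i hi => ?_, ht⟩
    rw [length_pre] at hi
    rw [pre_getD _ _ _ _ hi]
    exact hs i hi

theorem cmp_oc {E F : Op} {x y z : X} (h : Cmp E.1 x y) : Cmp (oc E F).1 x z ↔ Cmp F.1 y z := by
  simp only [Cmp, oc_iff h]

def Rel (p : Op × Op) (x y : X) : Prop := Cmp p.1.1 x y ∧ Cmp p.2.1 y x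

def Prog (p : Op × Op) (q : List Bool × ℕ) : Prop :=
  (∃ b, p.1.1 (q.1, q.2, b)) ∧ ∃ b, (oc p.1 p.2).1 (q.1, q.2, b)

def Cons (p : Op × Op) (x : X) : Prop :=
  ∀ n s, ¬ (p.1.1 (pre x s, n, true) ∧ p.1.1 (pre x s, n, false)) ∧
    ∀ b, (oc p.1 p.2).1 (pre x s, n, b) → x n = b

theorem Prog.mono {p : Op × Op} {σ τ : List Bool} {n : ℕ} (h : Prog p (σ, n)) (h' : σ <+: τ) :
    Prog p (τ, n) :=
  ⟨h.1.imp fun _ hb => p.1.2.2 _ _ _ _ h' hb, h.2.imp fun _ hb => (oc p.1 p.2).2.2 _ _ _ _ h' hb⟩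

theorem S1_prog (p : Op × Op) : S1 (Prog p) := by
  have : Primrec fun z : (List Bool × ℕ) × Bool => ((z.1.1, z.1.2, z.2) : Tri) :=
    (Primrec.fst.comp Primrec.fst).pair ((Primrec.snd.comp Primrec.fst).pair Primrec.snd)
  exact S1.and (S1.ex (p.1.2.1.comp this)) (S1.ex ((oc p.1 p.2).2.1.comp this))

theorem dom_iff (p : Op × Op) (x : X) :
    (∃ y, Rel p x y) ↔ Cons p x ∧ ∀ n, ∃ s, Prog p (pre x s, n) := by
  constructor
  · rintro ⟨y, h1, h2⟩
    have h3 := (cmp_oc h1).2 h2
    refine ⟨fun n s => ⟨fun h => ?_, fun b hb => (h3 n b).2 ⟨s, hb⟩⟩, fun n => ?_⟩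
    · have e1 := (h1 n _).2 ⟨s, h.1⟩
      have e2 := (h1 n _).2 ⟨s, h.2⟩
      simp [e1] at e2
    · obtain ⟨s, hs⟩ := (h1 n _).1 rfl
      obtain ⟨t, ht⟩ := (h3 n _).1 rfl
      exact ⟨max s t, ⟨_, p.1.2.2 _ _ _ _ (pre_prefix x (le_max_left _ _)) hs⟩,
        ⟨_, (oc p.1 p.2).2.2 _ _ _ _ (pre_prefix x (le_max_right _ _)) ht⟩⟩
  · rintro ⟨h1, h2⟩
    choose s hs using h2
    choose y hy using fun n => (hs n).1
    have h3 : Cmp p.1.1 x y := by
      intro n b
      constructor
      · rintro rfl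
        exact ⟨_, hy n⟩
      · rintro ⟨t, ht⟩
        have e1 := p.1.2.2 _ _ _ _ (pre_prefix x (le_max_left (s n) t)) (hy n)
        have e2 := p.1.2.2 _ _ _ _ (pre_prefix x (le_max_right (s n) t)) ht
        by_contra hc
        refine (h1 n (max (s n) t)).1 ?_
        cases b <;> simp only [Bool.not_eq_false, Bool.not_eq_true] at hc <;> rw [hc] at e1
        · exact ⟨e1, e2⟩
        · exact ⟨e2, e1⟩
    refine ⟨y, h3, (cmp_oc h3).1 fun n b => ⟨?_, fun ⟨t, ht⟩ => (h1 n t).2 b ht⟩⟩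
    rintro rfl
    obtain ⟨b, hb⟩ := (hs n).2
    exact ⟨s n, by rw [(h1 n _).2 b hb]; exact hb⟩

theorem open_pre (Q : List Bool → Prop) (s : ℕ) : IsOpen {x : X | Q (pre x s)} :=
  isOpen_iff_mem_nhds.2 fun x hx => mem_of_superset (agr_mem_nhds s x) fun y hy => by
    change Q (pre y s)
    rw [pre_congr hy]
    exact hx

theorem closed_cons (p : Op × Op) : IsClosed {x | Cons p x} := by
  refine ⟨isOpen_iff_mem_nhds.2 fun x hx => ?_⟩
  obtain ⟨n, hn⟩ := not_forall.1 hx
  obtain ⟨s, hs⟩ := not_forall.1 hn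
  refine mem_of_superset (agr_mem_nhds (s + n + 1) x) fun y hy hc => hs ?_
  have := hc n s
  rwa [pre_congr (agr.mono hy (by omega)), hy n (by omega)] at this

theorem gd_dom (p : Op × Op) : IsGδ {x | ∃ y, Rel p x y} := by
  have : {x | ∃ y, Rel p x y} = {x | Cons p x} ∩ ⋂ n, ⋃ s, {x | Prog p (pre x s, n)} := by
    ext x
    simp [dom_iff]
  rw [this]
  exact (closed_cons p).isGδ.inter (IsGδ.iInter_of_isOpen fun n => isOpen_iUnion fun s =>
    open_pre (fun σ => Prog p (σ, n)) s)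

theorem unif_fun {α β : Type} [Primcodable α] [Primcodable β] {r : α × β → Prop} (hr : S1 r)
    (h : ∀ a, ∃ b, r (a, b)) : ∃ f : α → β, Computable f ∧ ∀ a, r (a, f a) := by
  classical
  obtain ⟨q, hq, -, he⟩ := hr
  let g : α → ℕ → Option β := fun a k =>
    (decode (α := β × ℕ) k).bind fun z => if q (a, z.1) z.2 then some z.1 else none
  have hg : Computable₂ g := by
    refine Primrec₂.to_comp ?_
    refine Primrec.option_bind (Primrec.decode.comp Primrec.snd) ?_
    refine Primrec.ite (hq.comp ((Primrec.fst.comp Primrec.fst).pair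
      (Primrec.fst.comp Primrec.snd)) (Primrec.snd.comp Primrec.snd))
      (Primrec.option_some.comp (Primrec.fst.comp Primrec.snd)) (Primrec.const none)
  have hd : ∀ a, (Nat.rfindOpt (g a)).Dom := fun a => by
    obtain ⟨b, hb⟩ := h a
    obtain ⟨n, hn⟩ := (he _).1 hb
    exact Nat.rfindOpt_dom.2 ⟨encode (b, n), b, by simp [g, hn]⟩
  refine ⟨fun a => (Nat.rfindOpt (g a)).get (hd a),
    (Partrec.rfindOpt hg).of_eq_tot fun a => Part.get_mem _, fun a => ?_⟩
  obtain ⟨k, hk⟩ := Nat.rfindOpt_spec (Part.get_mem (hd a))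
  simp only [g, Option.mem_def, Option.bind_eq_some_iff] at hk
  obtain ⟨z, -, hz⟩ := hk
  split_ifs at hz with h1
  have h2 := (he _).2 ⟨_, h1⟩
  rwa [Option.some.inj hz] at h2

/-- the fusion sequence -/
def fus (e : List Bool × ℕ → List Bool) (x : X) (n : ℕ) : List Bool :=
  Nat.rec [] (fun k τ => e (τ ++ [x k], k)) n

theorem fus_congr (e : List Bool × ℕ → List Bool) {x y : X} (n : ℕ) (h : agr n x y) :
    fus e x n = fus e y n := by
  induction n with
  | zero => rfl
  | succ n ih =>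
    change e (fus e x n ++ [x n], n) = e (fus e y n ++ [y n], n)
    rw [ih (h.mono (by omega)), h n (by omega)]

def fs (e : List Bool × ℕ → List Bool) (σ : List Bool) : List Bool :=
  fus e (fun k => σ.getD k false) σ.length

theorem fs_pre (e : List Bool × ℕ → List Bool) (x : X) (n : ℕ) : fs e (pre x n) = fus e x n := by
  rw [fs, length_pre]
  exact fus_congr e n fun i hi => pre_getD _ _ _ _ hi

theorem fs_comp {e : List Bool × ℕ → List Bool} (he : Computable e) : Computable (fs e) :=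
  Computable.nat_rec (h := fun (σ : List Bool) (z : ℕ × List Bool) =>
    e (z.2 ++ [σ.getD z.1 false], z.1)) Computable.list_length (Computable.const [])
    (he.comp ((Primrec.list_append.comp (Primrec.snd.comp Primrec.snd)
      (Primrec.list_cons.comp ((Primrec.list_getD false).comp Primrec.fst
        (Primrec.fst.comp Primrec.snd)) (Primrec.const []))).pair
          (Primrec.fst.comp Primrec.snd)).to_comp)

section

variable {e : List Bool × ℕ → List Bool} (h : ∀ q, q.1 <+: e q)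
include h

theorem fus_step (x : X) (n : ℕ) : fus e x n ++ [x n] <+: fus e x (n + 1) := h (_, n)

theorem fus_len (x : X) (n : ℕ) : n ≤ (fus e x n).length := by
  induction n with
  | zero => omega
  | succ n ih =>
    have := (fus_step h x n).length_le
    simp at this
    omega

theorem fus_mono (x : X) {m n : ℕ} (hm : m ≤ n) : fus e x m <+: fus e x n := by
  induction hm with
  | refl => exact List.prefix_rfl
  | step _ ih => exact ih.trans ((List.prefix_append _ _).trans (fus_step h x _))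

theorem fus_lim (x : X) (n : ℕ) :
    pre (fun k => (fus e x (k + 1)).getD k false) (fus e x n).length = fus e x n := by
  refine eq_pre fun i hi => ?_
  have h1 := fus_len h x (i + 1)
  have h2 := fus_mono h x (le_max_left (i + 1) n)
  have h3 := fus_mono h x (le_max_right (i + 1) n)
  obtain ⟨u, hu⟩ := h2
  obtain ⟨v, hv⟩ := h3
  have e1 : (fus e x (i + 1) ++ u).getD i false = (fus e x (i + 1)).getD i false :=
    List.getD_append _ _ _ _ (by omega)
  have e2 : (fus e x n ++ v).getD i false = (fus e x n).getD i false :=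
    List.getD_append _ _ _ _ hi
  rw [← e1, ← e2, hu, hv]

theorem fus_inj {x y : X} (n : ℕ) {s : ℕ}
    (hs : fus e y n <+: pre (fun k => (fus e x (k + 1)).getD k false) s) : agr n y x := by
  induction n with
  | zero => exact fun i hi => by omega
  | succ n ih =>
    have h1 := (fus_step h y n).trans hs
    have h2 := ih ((List.prefix_append _ _).trans h1)
    rw [fus_congr e n h2] at h1
    have h3 := fus_step h x n
    rw [← fus_lim h x (n + 1)] at h3
    have h4 := (pre_eq_of_prefix h1).trans (by simpa using (pre_eq_of_prefix h3).symm)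
    intro i hi
    rcases Nat.lt_succ_iff_lt_or_eq.1 hi with hi | rfl
    · exact h2 i hi
    · simpa using h4

end

theorem dense_dom (p : Op × Op) (hd : Dense {x | ∃ y, Rel p x y}) :
    ∃ p' : Op × Op, ∃ θ : X → X, (∀ x, Rel p' x (θ x)) ∧ ∀ x, ∃ y, Rel p (θ x) y := by
  have hc : ∀ x, Cons p x := fun x =>
    closure_minimal (fun z hz => ((dom_iff p z).1 hz).1) (closed_cons p) (hd x)
  have h1 : S1 fun z : (List Bool × ℕ) × List Bool =>
      (∃ υ : List Bool, z.1.1 ++ υ = z.2) ∧ Prog p (z.2, z.1.2) := by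
    refine S1.and (S1.ex (S1.of_prim ?_)) ((S1_prog p).comp ?_)
    · exact Primrec.eq.comp (Primrec.list_append.comp
        (Primrec.fst.comp (Primrec.fst.comp Primrec.fst)) Primrec.snd)
        (Primrec.snd.comp Primrec.fst)
    · exact Primrec.snd.pair (Primrec.snd.comp Primrec.fst)
  obtain ⟨e, he, h2⟩ := unif_fun h1 (by
    rintro ⟨σ, n⟩
    obtain ⟨x, hx, hx'⟩ := hd.inter_nhds_nonempty
      (agr_mem_nhds σ.length fun k => σ.getD k false)
    obtain ⟨s, hs⟩ := ((dom_iff p x).1 hx).2 n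
    refine ⟨pre x (max s σ.length), ?_, hs.mono (pre_prefix x (le_max_left _ _))⟩
    have := pre_prefix x (le_max_right s σ.length)
    rwa [eq_pre hx'] at this)
  have h3 : ∀ q, q.1 <+: e q := fun q => (h2 q).1
  obtain ⟨F1, hF1⟩ := tot (G := fun q => (fs e q.1).getD q.2 false) (u := fun k => k + 1)
    ((Primrec₂.to_comp (Primrec.list_getD false)).comp ((fs_comp he).comp Computable.fst)
      Computable.snd) Computable.succ
  have h4 : S1 fun z : Tri => ∃ σ : List Bool, (∃ υ : List Bool, fs e σ ++ υ = z.1) ∧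
      z.2.1 < σ.length ∧ σ.getD z.2.1 false = z.2.2 := by
    refine S1.ex (S1.and (S1.ex ?_) (S1.of_prim (PrimrecPred.and ?_ ?_)))
    · exact (S1.of_prim (p := fun q : List Bool × List Bool => q.1 = q.2) Primrec.eq).comp_computable
        (f := fun q : (Tri × List Bool) × List Bool => (fs e q.1.2 ++ q.2, q.1.1.1))
        ((Computable.list_append.comp ((fs_comp he).comp (Computable.snd.comp Computable.fst))
          Computable.snd).pair (Computable.fst.comp (Computable.fst.comp Computable.fst)))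
    · exact Primrec.nat_lt.comp (Primrec.fst.comp (Primrec.snd.comp Primrec.fst))
        (Primrec.list_length.comp Primrec.snd)
    · exact Primrec.eq.comp ((Primrec.list_getD false).comp Primrec.snd
        (Primrec.fst.comp (Primrec.snd.comp Primrec.fst)))
        (Primrec.snd.comp (Primrec.snd.comp Primrec.fst))
  obtain ⟨F2, hF2⟩ := mk_op h4
  refine ⟨(F1, F2), fun x k => (fus e x (k + 1)).getD k false, fun x => ⟨hF1 _ _ fun k => ?_,
    hF2 _ _ fun n b => ?_⟩, fun x => (dom_iff p _).2 ⟨hc _, fun n => ?_⟩⟩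
  · simp only [fs_pre]
  · constructor
    · rintro rfl
      refine ⟨(fus e x (n + 1)).length, pre x (n + 1), ⟨[], ?_⟩, by simp,
        pre_getD _ _ _ _ (Nat.lt_succ_self n)⟩
      rw [fus_lim h3, fs_pre, List.append_nil]
    · rintro ⟨s, σ, h5, h6, h7⟩
      exact (fus_inj h3 σ.length h5 n h6).symm.trans h7
  · refine ⟨(fus e x (n + 1)).length, ?_⟩
    rw [fus_lim h3]
    exact (h2 _).2

theorem exists_sys : ∃ S : Sys, ∀ x y, S.E x y ↔ TLe x y ∧ TLe y x := by
  obtain ⟨c, hc⟩ := exists_surjective_nat (Op × Op)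
  have hc' : ∀ (p : Op × Op) (Q : (X → X → Prop) → Prop), Q (Rel p) → ∃ i, Q (Rel (c i)) :=
    fun p Q h => by
      obtain ⟨i, rfl⟩ := hc p
      exact ⟨i, h⟩
  refine ⟨⟨fun i => Rel (c i), ?_, ?_, ?_, ?_, fun i => gd_dom _, ?_, ?_, ?_⟩, ?_⟩
  · intro i x y y' h h'
    funext n
    exact ((h'.1 n _).2 ((h.1 n _).1 rfl)).symm
  · intro i
    exact hc' (c i).swap (fun r => ∀ x y, r y x ↔ Rel (c i) x y) fun x y => And.comm
  · intro i j
    exact hc' (oc (c i).1 (c j).1, oc (c j).2 (c i).2)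
      (fun r => ∀ x y z, Rel (c i) x y → Rel (c j) y z → r x z)
      fun x y z h h' => ⟨(cmp_oc h.1).2 h'.1, (cmp_oc h'.2).2 h.2⟩
  · intro i x y h n
    obtain ⟨s, hs⟩ := unif (c i).1.2.2 (c := y) n fun k _ => (h.1 k _).1 rfl
    exact ⟨s, fun x' y' h' ha k hk => (h'.1 k _).2 ⟨s, by rw [pre_congr ha]; exact hs k hk⟩⟩
  · intro n z
    obtain ⟨F1, h1⟩ := tot (G := fun q => (pre z n ++ q.1).getD q.2 false) (u := fun k => k + 1)
      ((Primrec.list_getD false).comp (Primrec.list_append.comp (Primrec.const _) Primrec.fst)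
        Primrec.snd).to_comp Computable.succ
    obtain ⟨F2, h2⟩ := query (f := fun k => k + n) (Primrec.nat_add.comp Primrec.id (Primrec.const n))
    refine hc' (F1, F2) (fun r => ∀ x, r x (cat n z x)) fun x =>
      ⟨h1 _ _ fun k => ?_, h2 _ _ fun k => by simp [cat]⟩
    by_cases hk : k < n
    · rw [List.getD_append _ _ _ _ (by simpa using hk), pre_getD _ _ _ _ hk]
      simp [cat, hk]
    · rw [List.getD_append_right _ _ _ _ (by simpa using hk), length_pre,
        pre_getD _ _ _ _ (by omega)]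
      simp [cat, hk]
  · obtain ⟨F1, h1⟩ := query (f := fun k => k / 2) (Primrec.nat_div.comp Primrec.id (Primrec.const 2))
    obtain ⟨F2, h2⟩ := query (f := fun k => 2 * k) (Primrec.nat_mul.comp (Primrec.const 2) Primrec.id)
    refine hc' (F1, F2) (fun r => ∃ f : X → X, (∀ x, r x (f x)) ∧ interior (range f) = ∅)
      ⟨fun x k => x (k / 2), fun x => ⟨h1 _ _ fun k => rfl, h2 _ _ fun k => by simp⟩, ?_⟩
    refine eq_empty_iff_forall_notMem.2 fun y hy => ?_
    obtain ⟨n, hn⟩ := exists_agr (mem_interior_iff_mem_nhds.1 hy)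
    obtain ⟨x, hx⟩ := hn (fun k => if k = 2 * n + 1 then !(y (2 * n)) else y k)
      fun k hk => if_neg (by omega)
    have e1 := congrFun hx (2 * n)
    have e2 := congrFun hx (2 * n + 1)
    simp only [show (2 * n + 1) / 2 = 2 * n / 2 by omega, if_neg (Nat.lt_succ_self (2 * n)).ne,
      if_true] at e1 e2
    rw [e1] at e2
    simp at e2
  · intro i hd
    obtain ⟨p', θ, h1, h2⟩ := dense_dom _ hd
    exact hc' p' (fun r => ∃ θ : X → X, (∀ x, r x (θ x)) ∧ ∀ x, ∃ y, Rel (c i) (θ x) y) ⟨θ, h1, h2⟩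
  · intro x y
    constructor
    · rintro ⟨i, h1, h2⟩
      exact ⟨tLe_iff.2 ⟨_, (c i).2.2.1, (c i).2.2.2, h2⟩, tLe_iff.2 ⟨_, (c i).1.2.1, (c i).1.2.2, h1⟩⟩
    · rintro ⟨h1, h2⟩
      obtain ⟨E, a1, a2, a3⟩ := tLe_iff.1 h1
      obtain ⟨F, b1, b2, b3⟩ := tLe_iff.1 h2
      exact hc' (⟨F, b1, b2⟩, ⟨E, a1, a2⟩) (fun r => r x y) ⟨b3, a3⟩

end Pool.Agent.H874Z.Tu
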